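import Pool.Agent.N883.U.Cong
import Pool.Agent.W245.EB.Psi
import Pool.Agent.TH936.CM.Psi

/-!
# The value at one divided by the period is algebraic
-/

set_option autoImplicit false

open Filter
open scoped Topology PeriodPair

namespace Pool.Agent.N883.U

open H667R3 Pool.Agent.W192.HK Pool.Agent.TH936.CM Pool.Agent.TH936.PU
open Pool.Agent.W192.CM (nu)
open Pool.Agent.W245.EB (QB mem_QB torsion_EL wp'_alg)

variable {L : PeriodPair} {R : Subring ℂ} {Ω : ℂ}

lemma div_alg (h2 : IsAlgebraic ℚ L.g₂) (h3 : IsAlgebraic ℚ L.g₃) {t : ℂ} {m : ℕ} (hm : 0 < m)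
    (ht : (m : ℂ) * t ∈ L.lattice) : ℘[L] t ∈ QB ∧ ℘'[L] t ∈ QB := by
  by_cases h : t ∈ L.lattice
  · have e1 : ℘[L] t = 0 := L.weierstrassP_coe ⟨t, h⟩
    have e2 : ℘'[L] t = 0 := L.derivWeierstrassP_coe ⟨t, h⟩
    rw [e1, e2]
    exact ⟨zero_mem _, zero_mem _⟩
  · rcases torsion_EL h2 h3 hm ht with h4 | h4
    · exact absurd h4 h
    · exact ⟨mem_QB.2 h4, mem_QB.2 (wp'_alg h2 h3 h h4)⟩

lemma Eo_alg {f : R} [Finite (R ⧸ sp f)] {e : R → ℂ} (he : Eo f e) (he1 : e 1 = 1) (x : R) :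
    e x ∈ QB := by
  by_cases hx : e x = 0
  · rw [hx]
    exact zero_mem _
  obtain ⟨i, j, hij, h⟩ := Finite.exists_ne_map_eq_of_infinite
    (fun i : ℕ => Ideal.Quotient.mk (sp f) (x ^ i))
  have hp : ∀ i : ℕ, e (x ^ i) = e x ^ i := by
    intro i
    induction i with
    | zero => simp [he1]
    | succ i ih => rw [pow_succ, he.mul, ih, pow_succ]
  have h1 : e x ^ i = e x ^ j := by
    rw [← hp, ← hp]
    exact he.per _ _ ((Ideal.Quotient.mk_eq_mk_iff_sub_mem _ _).1 h)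
  have key : ∀ i j : ℕ, i < j → e x ^ i = e x ^ j → e x ∈ QB := by
    intro i j hlt h2
    have h3 : e x ^ (j - i) = 1 := by
      have h4 : e x ^ j = e x ^ i * e x ^ (j - i) := by
        rw [← pow_add]
        congr 1
        omega
      rw [h4] at h2
      exact (mul_left_cancel₀ (pow_ne_zero i hx) (by rw [mul_one]; exact h2)).symm
    exact mem_QB.2 (IsAlgebraic.of_pow (n := j - i) (by omega) (h3 ▸ isAlgebraic_one))
  rcases lt_or_gt_of_ne hij with h4 | h4
  · exact key i j h4 h1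
  · exact key j i h4 h1.symm

/-- the value at one divided by the period is algebraic -/
theorem l_alg (hL : IsLat L R Ω) (h2 : IsAlgebraic ℚ L.g₂) (h3 : IsAlgebraic ℚ L.g₃)
    (hRalg : ∀ r : R, (r : ℂ) ∈ QB) (hfin : ∀ q : R, q ≠ 0 → Finite (R ⧸ sp q))
    (hnm : ∀ a : R, (Nat.card (R ⧸ sp a) : ℝ) = Complex.normSq (a : ℂ))
    {f : R} (hf : f ≠ 0) [Fintype (R ⧸ sp f)] {e : R → ℂ} (he : Eo f e)
    (he1 : e 1 = 1) {l : ℂ} (hl : Tendsto (SS e) (𝓝[>] 0) (𝓝 l)) : l / Ω ∈ QB := by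
  classical
  have hΩ := hL.ne
  have hf0 := coe_ne hf
  set n : ℕ := Nat.card (R ⧸ sp f) + 1 with hn
  have hcard : 0 < Nat.card (R ⧸ sp f) := Nat.card_pos
  have hn1 : 1 < n := by omega
  have hn2 : ((Nat.card (R ⧸ sp f) : ℕ) : ℤ) ∣ (n : ℤ) - 1 := by
    rw [hn]
    push_cast
    simp
  obtain ⟨a, ha⟩ : ∃ a : R, a = (n : R) := ⟨_, rfl⟩
  have haC : (a : ℂ) = (n : ℂ) := by rw [ha]; push_cast; rfl
  have hn0 : (n : ℂ) ≠ 0 := by
    have : n ≠ 0 := by omega
    exact_mod_cast this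
  have ha0 : a ≠ 0 := by
    intro h
    apply hn0
    rw [← haC, h]
    rfl
  have hfinA : Finite (R ⧸ sp a) := hfin a ha0
  have : Fintype (R ⧸ sp a) := Fintype.ofFinite _
  have h8 := w_id hL hfin hnm hf he he1 hl hn1 hn2 ha
  have hn1' : (1 - (n : ℂ)) ≠ 0 := by
    intro h
    have h9 : (n : ℂ) = ((1 : ℕ) : ℂ) := by push_cast; linear_combination -h
    have h10 : n = 1 := by exact_mod_cast h9
    omega
  have hH : ∀ x : R, HH L Ω f e (Ω * x / (n : ℂ)) ∈ QB := by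
    intro x
    unfold HH
    refine mul_mem (div_mem (one_mem _) (ofNat_mem _ _)) (sum_mem fun y _ => ?_)
    refine mul_mem (Eo_alg he he1 _) ?_
    unfold Dd
    obtain ⟨t, ht⟩ := Ideal.mem_span_singleton'.1 (card_mem (sp f))
    have ht' : (t : ℂ) * f = ((Nat.card (R ⧸ sp f) : ℕ) : ℂ) := by
      have := congrArg Subtype.val ht
      push_cast at this
      exact this
    obtain ⟨d1, d2⟩ := div_alg h2 h3 (t := Ω * y.out / f) hcard (by
      rw [hL.mem]
      refine ⟨t * y.out, ?_⟩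
      rw [← ht']
      push_cast
      field_simp)
    obtain ⟨d3, -⟩ := div_alg h2 h3 (t := Ω * x / (n : ℂ)) (m := n) (by omega) (by
      rw [hL.mem]
      refine ⟨x, ?_⟩
      field_simp)
    exact div_mem d2 (sub_mem d1 d3)
  have e1 : l / Ω = (∑ x : R ⧸ sp a, (if x.out ∈ sp a then 0 else 1) *
      HH L Ω f e (Ω * x.out / (n : ℂ))) / (f * (n * (1 - n))) := by
    rw [h8]
    field_simp
  rw [e1]
  refine div_mem (sum_mem fun x _ => mul_mem ?_ (hH _)) (mul_mem (hRalg f) (mul_mem (natCast_mem _ _)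
    (sub_mem (one_mem _) (natCast_mem _ _))))
  split_ifs
  · exact zero_mem _
  · exact one_mem _

/-- an algebraic number that is not zero is a unit at almost all primes -/
theorem alg_unit {a : ℂ} (ha : IsAlgebraic ℚ a) (h0 : a ≠ 0) : ∃ N : ℕ, N ≠ 0 ∧
    ∀ p : ℕ, p.Prime → ¬ p ∣ N → ∀ (Γ : Type) [LinearOrderedCommGroupWithZero Γ]
      (v : Valuation ℂ Γ), v (p : ℂ) < 1 → v a = 1 := by
  have key : ∀ b : ℂ, IsAlgebraic ℚ b → ∃ m : ℕ, m ≠ 0 ∧ IsIntegral ℤ ((m : ℂ) * b) := by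
    intro b hb
    have h1 : IsAlgebraic ℤ b := (IsFractionRing.isAlgebraic_iff ℤ ℚ ℂ).2 hb
    obtain ⟨y, hy0, hy⟩ := h1.exists_integral_multiple
    refine ⟨y.natAbs, Int.natAbs_ne_zero.2 hy0, ?_⟩
    rcases Int.natAbs_eq y with h | h
    · have e1 : (y.natAbs : ℂ) * b = y • b := by
        rw [zsmul_eq_mul]
        congr 1
        rw [← Int.cast_natCast, ← h]
      rw [e1]
      exact hy
    · have e1 : (y.natAbs : ℂ) * b = -(y • b) := by
        rw [zsmul_eq_mul, ← neg_mul]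
        congr 1
        have : ((y.natAbs : ℤ) : ℂ) = -(y : ℂ) := by
          rw [← Int.cast_neg]
          congr 1
          omega
        rw [← this, Int.cast_natCast]
      rw [e1]
      exact hy.neg
  obtain ⟨m, hm0, hm⟩ := key a ha
  obtain ⟨n, hn0, hn⟩ := key a⁻¹ ha.inv
  refine ⟨m * n, mul_ne_zero hm0 hn0, fun p hp hpN Γ _ v hv => ?_⟩
  have hint : ∀ b : ℂ, IsIntegral ℤ b → v b ≤ 1 := by
    intro b hb
    have h1 : IsIntegral v.integer b := by
      have : IsIntegral ℤ b := hb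
      exact this.tower_top
    exact (Valuation.integer.integers v).mem_of_integral h1
  have hnat : ∀ m : ℕ, ¬ p ∣ m → v (m : ℂ) = 1 := fun m h => v_nat_prime hp hv h
  have v1 : v a ≤ 1 := by
    have h1 := hint _ hm
    rwa [map_mul, hnat m (fun h => hpN (h.mul_right n)), one_mul] at h1
  have v2 : v a⁻¹ ≤ 1 := by
    have h1 := hint _ hn
    rwa [map_mul, hnat n (fun h => hpN (h.mul_left m)), one_mul] at h1
  refine le_antisymm v1 ?_
  rw [map_inv₀] at v2
  have h3 : v a ≠ 0 := (Valuation.ne_zero_iff v).2 h0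
  exact (inv_le_one₀ (zero_lt_iff.2 h3)).1 v2

end Pool.Agent.N883.U
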