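import Pool.Agent.N883.U.Val

/-!
# The congruence
-/

set_option autoImplicit false

open Filter
open scoped Topology PeriodPair

namespace Pool.Agent.N883.U

open H667R3 Pool.Agent.W192.HK Pool.Agent.TH936.CM Pool.Agent.TH936.PU
open Pool.Agent.W192.CM (nu)
open Pool.Agent.Y696 (lbasic lfp lcnt ldec lafe lprod)
open Pool.Agent.N883.Q (v_root_q)

variable {L : PeriodPair} {R : Subring ℂ} {Ω : ℂ} {Γ : Type} [LinearOrderedCommGroupWithZero Γ]
  {v : Valuation ℂ Γ} {p : ℕ}

/-- the elements that are prime to `c` -/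
lemma cop_iff [IsPrincipalIdealRing R] {c : R} {S : Finset (Ideal R)}
    (hS : ∀ P : Ideal R, P ∈ S ↔ P.IsMaximal ∧ c ∈ P) (α : R) :
    IsCoprime α c ↔ ¬ ∃ P ∈ S, α ∈ P := by
  constructor
  · rintro ⟨a, b, hab⟩ ⟨P, hP, hα⟩
    obtain ⟨h1, h2⟩ := (hS P).1 hP
    apply h1.ne_top
    rw [Ideal.eq_top_iff_one, ← hab]
    exact add_mem (P.mul_mem_left _ hα) (P.mul_mem_left _ h2)
  · intro h
    by_contra hcon
    rw [← Ideal.isCoprime_span_singleton_iff, Ideal.isCoprime_iff_sup_eq] at hcon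
    obtain ⟨M, hM, hle⟩ := Ideal.exists_le_maximal _ hcon
    exact h ⟨M, (hS M).2 ⟨hM, hle (Ideal.mem_sup_right (Ideal.mem_span_singleton_self c))⟩,
      hle (Ideal.mem_sup_left (Ideal.mem_span_singleton_self α))⟩

/-- **the congruence for one character** -/
theorem cong (hL : IsLat L R Ω) (hG : Gd v L) (hR1 : ∀ r : R, v (r : ℂ) ≤ 1)
    [IsPrincipalIdealRing R]
    (hfin : ∀ q : R, q ≠ 0 → Finite (R ⧸ sp q))
    (hnm : ∀ a : R, (Nat.card (R ⧸ sp a) : ℝ) = Complex.normSq (a : ℂ))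
    {f c : R} (hf : f ≠ 0) (hc : c ≠ 0) (hfc : IsCoprime f c) (hct : sp c ≠ ⊤)
    [Fintype (R ⧸ sp f)] [Fintype (R ⧸ sp c)] (hp : p.Prime) (hp2 : p ≠ 2)
    (hv : v (p : ℂ) < 1) (hpf : ¬ p ∣ Nat.card (R ⧸ sp f)) (hpc : ¬ p ∣ Nat.card (R ⧸ sp c))
    {e : R → ℂ} (he : Eo f e) (he1 : e 1 = 1) {l : ℂ} (hl : Tendsto (SS e) (𝓝[>] 0) (𝓝 l))
    {χ : R → ℂ} (hχ : Xo c χ) (hχu : ∀ α : R, χ α ≠ 0 ↔ IsCoprime α c) {k : ℕ}
    (hχp : ∀ α : R, χ α ≠ 0 → χ α ^ p ^ k = 1) {l' : ℂ}
    (hl' : Tendsto (SS (fun α => e α * χ α)) (𝓝[>] 0) (𝓝 l'))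
    {S : Finset (Ideal R)} (hS : ∀ P : Ideal R, P ∈ S ↔ P.IsMaximal ∧ c ∈ P)
    (g : Ideal R → R) (hg : ∀ P ∈ S, P = sp (g P)) :
    v (l' / Ω) ≤ 1 ∧ v (l / Ω) ≤ 1 ∧
      v (l' / Ω - l / Ω * ∏ P ∈ S, (1 - e (g P) / g P)) < 1 := by
  classical
  have hΩ := hL.ne
  have hf0 := coe_ne hf
  have hc0 := coe_ne hc
  have hcpf : Cp v f := cp_of hp hv hpf
  have hcpc : Cp v c := cp_of hp hv hpc
  have vf : v (f : ℂ) = 1 := hcpf.unit hR1
  have vc : v (c : ℂ) = 1 := hcpc.unit hR1
  have hw := WW_lim hL hf he hl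
  have hwle := w_int hL hG hR1 hfin hnm hf hp hv hpf he he1 hl
  set w := (f : ℂ) / Ω * l with hwdef
  have hlw : l = Ω / f * w := by
    rw [hwdef]
    field_simp
  have hg0 : ∀ P ∈ S, g P ≠ 0 := by
    intro P hP h
    have h1 := hg P hP
    have h2 := ((hS P).1 hP).2
    rw [h1, h, Ideal.mem_span_singleton, zero_dvd_iff] at h2
    exact hc h2
  -- the values of `e`
  have hecne : e c ≠ 0 := by
    intro h0
    obtain ⟨a, b, hab⟩ := hfc
    have h1 : e (b * c) = 1 := by
      rw [he.per (b * c) 1 (by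
        rw [Ideal.mem_span_singleton']
        exact ⟨-a, by linear_combination -hab⟩), he1]
    rw [he.mul, h0, mul_zero] at h1
    exact zero_ne_one h1
  have vec : v (e c) = 1 := he.unit he1 hecne
  -- the two functions
  have hχf0 : χ f ≠ 0 := (hχu f).2 hfc
  have hone : ∀ α : R, χ α ≠ 0 → v (χ α - 1) < 1 := fun α h => v_root_q hp hv (hχp α h)
  have hXχ : Xh f c χ (χ f) := ⟨hχ.per, fun x => hχ.mul x f, hχ.zero, hχ.bd⟩
  set χ₀ : R → ℂ := fun α => if IsCoprime α c then 1 else 0 with hχ₀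
  have hcper : ∀ x y : R, x - y ∈ sp c → (IsCoprime x c ↔ IsCoprime y c) := by
    intro x y h
    obtain ⟨t, ht⟩ := Ideal.mem_span_singleton'.1 h
    have e1 : x = y + t * c := by linear_combination -ht
    rw [e1]
    exact IsCoprime.add_mul_right_left_iff
  have hXχ₀ : Xh f c χ₀ 1 := by
    refine ⟨fun x y h => ?_, fun x => ?_, fun x hx => ?_, fun x => ?_⟩
    · rw [hχ₀]
      simp only [hcper x y h]
    · rw [mul_one, hχ₀]
      simp only
      have : IsCoprime (x * f) c ↔ IsCoprime x c := by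
        rw [IsCoprime.mul_left_iff]
        exact ⟨fun h => h.1, fun h => ⟨h, hfc⟩⟩
      simp only [this]
    · rw [hχ₀]
      simp only
      rw [if_neg]
      intro h
      have h1 := (hcper x 0 (by rwa [sub_zero])).1 h
      rw [isCoprime_zero_left] at h1
      exact hct (Ideal.span_singleton_eq_top.2 h1)
    · rw [hχ₀]
      simp only
      split_ifs
      · simp
      · simp
  have l1 := tendsto_nhds_unique hl' (lim_gen hL hf hc hfc hfin he hXχ hw)
  have l2 := lim_gen hL hf hc hfc hfin he hXχ₀ hw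
  have l3 := lim_rmv hL he.mul he.bd g hl S (fun P hP => ((hS P).1 hP).1) hg hg0
  have e1 : (fun α => e α * χ₀ α) = rmv S e := by
    funext α
    rw [hχ₀]
    unfold rmv
    simp only
    by_cases h : IsCoprime α c
    · rw [if_pos h, if_neg ((cop_iff hS α).1 h), mul_one]
    · rw [if_neg h, if_pos (by
        by_contra h2
        exact h ((cop_iff hS α).2 h2)), mul_zero]
  rw [e1] at l2
  have l4 := tendsto_nhds_unique l3 l2
  set Q := ∏ P ∈ S, (1 - e (g P) / (g P : ℂ)) with hQ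
  set A := ∑ x : R ⧸ sp c, χ x.out * HH L Ω f e (Ω * x.out / c) with hA
  set B := ∑ x : R ⧸ sp c, χ₀ x.out * HH L Ω f e (Ω * x.out / c) with hB
  set b := ∑ x : R ⧸ sp c, χ₀ x.out with hb
  rw [hχ.sum, zero_mul, add_zero] at l1
  rw [hlw] at l4
  have h5 : B + b * w = w * (c / e c * Q) := by
    field_simp at l4 ⊢
    linear_combination -l4
  -- the values at the points
  have vh : ∀ x : R ⧸ sp c, x ≠ 0 → v (HH L Ω f e (Ω * x.out / c) + w) ≤ 1 := fun x hx =>
    v_add_le (HH_int hL hG hf hc hfc hcpf hcpc he he1 (out_notMem hx)) hwle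
  have hx0 : ∀ x : R ⧸ sp c, IsCoprime x.out c → x ≠ 0 := by
    rintro x hx rfl
    have h1 : (0 : R ⧸ sp c).out ∈ sp c := by
      rw [← Ideal.Quotient.eq_zero_iff_mem, Ideal.Quotient.mk_out]
    have h2 := (hcper _ 0 (by rwa [sub_zero])).1 hx
    rw [isCoprime_zero_left] at h2
    exact hct (Ideal.span_singleton_eq_top.2 h2)
  have hAle : v A ≤ 1 := by
    refine v_sum_le _ fun x _ => ?_
    by_cases hx : χ x.out = 0
    · rw [hx, zero_mul, map_zero]
      exact zero_le_one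
    · have h6 := hx0 x ((hχu _).1 hx)
      refine v_mul_le ?_ (HH_int hL hG hf hc hfc hcpf hcpc he he1 (out_notMem h6))
      have h7 := hone _ hx
      have h8 : χ x.out = (χ x.out - 1) + 1 := by ring
      rw [h8]
      exact v_add_le h7.le (by rw [map_one])
  have hd : v (A - (B + b * w)) < 1 := by
    have e2 : A - (B + b * w) = ∑ x : R ⧸ sp c, (χ x.out - χ₀ x.out) *
        (HH L Ω f e (Ω * x.out / c) + w) := by
      have e3 : A = A + (∑ x : R ⧸ sp c, χ x.out) * w := by rw [hχ.sum, zero_mul, add_zero]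
      rw [e3, hA, hB, hb, Finset.sum_mul, Finset.sum_mul, ← Finset.sum_add_distrib,
        ← Finset.sum_add_distrib, ← Finset.sum_sub_distrib]
      exact Finset.sum_congr rfl fun x _ => by ring
    rw [e2]
    refine v_sum_lt _ fun x _ => ?_
    by_cases hx : IsCoprime x.out c
    · have h6 : χ₀ x.out = 1 := by
        rw [hχ₀]
        simp only
        rw [if_pos hx]
      rw [h6]
      exact v_mul_lt' (hone _ ((hχu _).2 hx)) (vh x (hx0 x hx))
    · have h6 : χ₀ x.out = 0 := by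
        rw [hχ₀]
        simp only
        rw [if_neg hx]
      have h7 : χ x.out = 0 := by
        by_contra h8
        exact hx ((hχu _).1 h8)
      rw [h6, h7, sub_self, zero_mul, map_zero]
      exact zero_lt_one
  -- conclusion
  have hl1 : l / Ω = w / f := by
    rw [hlw]
    field_simp
  have hl2 : l' / Ω = (e c * χ f) / (f * c) * A := by
    rw [l1]
    field_simp
  have vχf : v (χ f) = 1 := by
    have h6 := hone _ hχf0
    have h7 : χ f = (χ f - 1) + 1 := by ring
    rw [h7, Valuation.map_add_eq_of_lt_right _ (by rw [map_one]; exact h6), map_one]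
  refine ⟨?_, ?_, ?_⟩
  · rw [hl2, map_mul, map_div₀, map_mul, map_mul, vec, vχf, vf, vc]
    simpa using hAle
  · rw [hl1, map_div₀, vf, div_one]
    exact hwle
  · have e3 : l' / Ω - l / Ω * Q = (e c * χ f) / (f * c) * (A - (B + b * w)) +
        (χ f - 1) * (w * Q / f) := by
      rw [hl1, hl2, h5]
      field_simp
      ring
    have hQle : v (w * Q / f) ≤ 1 := by
      have h6 : v (w * (c / e c * Q)) ≤ 1 := by
        rw [← h5]
        have h7 : B + b * w = A - (A - (B + b * w)) := by ring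
        rw [h7]
        exact v_sub_le hAle hd.le
      rw [v.map_mul w, v.map_mul ((c : ℂ) / e c) Q, map_div₀ v (c : ℂ) (e c), vc, vec, div_one,
        one_mul] at h6
      rw [map_div₀, v.map_mul w Q, vf, div_one]
      exact h6
    rw [e3]
    refine v_add_lt ?_ (v_mul_lt' (hone _ hχf0) hQle)
    rw [map_mul, map_div₀, map_mul, map_mul, vec, vχf, vf, vc]
    simpa using hd

end Pool.Agent.N883.U
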