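import Pool.Agent.N883.U.Inert
import Pool.Agent.N883.Q.Dat

/-!
# Horizontal stability: the final statement
-/

set_option autoImplicit false

open Filter
open scoped Topology PeriodPair

namespace Pool.Agent.N883.U

open H667R3 Pool.Agent.W192.HK Pool.Agent.TH936.CM Pool.Agent.TH936.PU
open Pool.Agent.Y696 (lbasic lfp lcnt ldec lafe lprod)
open Pool.Agent.N883.Q (v_root_q)

variable {L : PeriodPair} {R : Subring ℂ} {ω : ℂ}

/-- `p` does not divide the norm -/
lemma card_of (hR : QR R ω) {p : ℕ} (hp : p.Prime) {c : Ideal R} (hc : c ≠ ⊥)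
    (h : ∀ P : Ideal R, P.IsMaximal → c ≤ P → (p : R) ∉ P) : ¬ p ∣ Nat.card (R ⧸ c) := by
  intro hdvd
  have hfin : Finite (R ⧸ c) := (lbasic R ω hR).1 c hc
  have : Fact p.Prime := ⟨hp⟩
  obtain ⟨x, hx⟩ := exists_prime_addOrderOf_dvd_card' (G := R ⧸ c) p hdvd
  have hx0 : x ≠ 0 := by
    rintro rfl
    rw [addOrderOf_zero] at hx
    exact hp.one_lt.ne hx
  have hpx : (p : R ⧸ c) * x = 0 := by
    rw [← nsmul_eq_mul, ← hx]
    exact addOrderOf_nsmul_eq_zero x
  by_cases hne : Ideal.span {(p : R)} ⊔ c = ⊤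
  · rw [Ideal.eq_top_iff_one, Submodule.mem_sup] at hne
    obtain ⟨a, ha, b, hb, hab⟩ := hne
    obtain ⟨t, rfl⟩ := Ideal.mem_span_singleton'.1 ha
    apply hx0
    have h1 : Ideal.Quotient.mk c t * (p : R ⧸ c) = 1 := by
      have h2 := congrArg (Ideal.Quotient.mk c) hab
      rw [map_add, map_mul, Ideal.Quotient.eq_zero_iff_mem.2 hb, add_zero, map_one,
        map_natCast] at h2
      exact h2
    calc x = (Ideal.Quotient.mk c t * (p : R ⧸ c)) * x := by rw [h1, one_mul]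
      _ = Ideal.Quotient.mk c t * ((p : R ⧸ c) * x) := by ring
      _ = 0 := by rw [hpx, mul_zero]
  · obtain ⟨M, hM, hle⟩ := Ideal.exists_le_maximal _ hne
    exact h M hM (le_sup_right.trans hle)
      (hle (Ideal.mem_sup_left (Ideal.mem_span_singleton_self _)))

/-- characters of order `p ^ k` of the conductor `l` -/
lemma exists_chi [IsPrincipalIdealRing R] (hR : QR R ω) {p k l : ℕ} (hp : p.Prime) (hk : 0 < k)
    (hpu : ¬ p ∣ Nat.card Rˣ) (hl : l.Prime) (hlm : (sp (l : R)).IsMaximal)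
    (hpl : p ^ k ∣ l - 1) : ∃ χ : Ideal R → ℂ, HC 0 (sp (l : R)) χ ∧ Od χ (p ^ k) := by
  classical
  obtain ⟨b1, -, b3, b4, b5, b6, b7, b8, b9⟩ := lbasic R ω hR
  have hl0 : (l : R) ≠ 0 := by
    intro h
    have h1 := congrArg Subtype.val h
    push_cast at h1
    have h2 : (l : ℂ) ≠ 0 := by exact_mod_cast hl.ne_zero
    exact h2 h1
  have hfin : Finite (R ⧸ sp (l : R)) := b1 _ (by rw [Ne, Ideal.span_singleton_eq_bot]; exact hl0)
  let _ := Ideal.Quotient.field (sp (l : R))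
  let _ : Fintype (R ⧸ sp (l : R)) := Fintype.ofFinite _
  have hcard : Fintype.card (R ⧸ sp (l : R)) = l ^ 2 := by
    rw [← Nat.card_eq_fintype_card]
    have h1 : nm (sp (l : R)) = Complex.normSq ((l : R) : ℂ) := b5 _
    unfold nm at h1
    push_cast at h1
    rw [Complex.normSq_natCast] at h1
    have h2 : ((Nat.card (R ⧸ sp (l : R)) : ℕ) : ℝ) = ((l * l : ℕ) : ℝ) := by
      push_cast
      exact h1
    have h3 : Nat.card (R ⧸ sp (l : R)) = l * l := by exact_mod_cast h2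
    rw [h3, pow_two]
  have hpk0 : p ^ k ≠ 0 := pow_ne_zero _ hp.ne_zero
  have hdvd : p ^ k ∣ Fintype.card (R ⧸ sp (l : R)) - 1 := by
    rw [hcard]
    refine hpl.trans ?_
    have h1 : 1 ≤ l := hl.one_lt.le
    have h2 : l ^ 2 - 1 = (l - 1) * (l + 1) := by
      obtain ⟨m, rfl⟩ : ∃ m, l = m + 1 := ⟨l - 1, by omega⟩
      simp only [Nat.add_sub_cancel]
      have : (m + 1) ^ 2 = m * (m + 1 + 1) + 1 := by ring
      rw [this, Nat.add_sub_cancel]
    rw [h2]
    exact dvd_mul_right _ _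
  obtain ⟨η, hη⟩ := MulChar.exists_mulChar_orderOf (R ⧸ sp (l : R)) hdvd
    (Complex.isPrimitiveRoot_exp (p ^ k) hpk0)
  have hUfin : Finite Rˣ := b9
  have hηu : ∀ u : R, IsUnit u → η (Ideal.Quotient.mk (sp (l : R)) u) = 1 := by
    rintro u ⟨w, rfl⟩
    set z := η (Ideal.Quotient.mk (sp (l : R)) (w : R)) with hz
    have h1 : z ^ Nat.card Rˣ = 1 := by
      rw [hz, ← map_pow, ← map_pow, ← Units.val_pow_eq_pow_val, pow_card_eq_one', Units.val_one,
        map_one, map_one]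
    have h2 : z ^ p ^ k = 1 := by
      have h3 : (η ^ p ^ k) (Ideal.Quotient.mk (sp (l : R)) (w : R)) = 1 := by
        rw [← hη, pow_orderOf_eq_one]
        exact MulChar.one_apply (w.isUnit.map (Ideal.Quotient.mk (sp (l : R))))
      rw [MulChar.pow_apply' η hpk0] at h3
      exact h3
    have hcop : Nat.Coprime (Nat.card Rˣ) (p ^ k) :=
      Nat.Coprime.pow_right k ((Nat.Prime.coprime_iff_not_dvd hp).2 hpu).symm
    have h4 : orderOf z ∣ Nat.gcd (Nat.card Rˣ) (p ^ k) :=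
      Nat.dvd_gcd (orderOf_dvd_of_pow_eq_one h1) (orderOf_dvd_of_pow_eq_one h2)
    rw [hcop.gcd_eq_one, Nat.dvd_one, orderOf_eq_one_iff] at h4
    exact h4
  have hη1 : η ≠ 1 := by
    rintro rfl
    rw [orderOf_one] at hη
    exact (Nat.one_lt_pow hk.ne' hp.one_lt).ne hη
  have hgen : ∀ I : Ideal R, ∃ α : R, I = sp α := fun I =>
    ⟨_, (Submodule.IsPrincipal.span_singleton_generator I).symm⟩
  have hpow : ∀ n : ℕ, 0 < n → ((∀ I : Ideal R, chi η I ≠ 0 → chi η I ^ n = 1) ↔ η ^ n = 1) := by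
    intro n hn
    constructor
    · intro h
      ext w
      obtain ⟨α, hα⟩ := Ideal.Quotient.mk_surjective (w : R ⧸ sp (l : R))
      have h1 := h (sp α)
      rw [chi_sp hηu, hα] at h1
      have h2 : η (w : R ⧸ sp (l : R)) ≠ 0 := (w.isUnit.map η).ne_zero
      have h3 := h1 (by rw [Ne, map_eq_zero]; exact h2)
      rw [← map_pow] at h3
      have h4 := congrArg (starRingEnd ℂ) h3
      rw [Complex.conj_conj, map_one] at h4
      rw [MulChar.pow_apply' η hn.ne', h4, MulChar.one_apply w.isUnit]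
    · intro h I hI
      obtain ⟨α, rfl⟩ := hgen I
      rw [chi_sp hηu] at hI ⊢
      have h1 : IsUnit (Ideal.Quotient.mk (sp (l : R)) α) := by
        by_contra h2
        apply hI
        rw [η.map_nonunit h2, map_zero]
      rw [← map_pow, ← MulChar.pow_apply' η hn.ne', h, MulChar.one_apply h1, map_one]
  refine ⟨chi η, chi_hc hηu hl0 hlm hη1, ⟨Nat.pos_of_ne_zero hpk0, ?_, ?_⟩⟩
  · refine (hpow _ (Nat.pos_of_ne_zero hpk0)).2 ?_
    rw [← hη]
    exact pow_orderOf_eq_one η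
  · intro n hn h
    rw [← hη]
    exact Nat.le_of_dvd hn (orderOf_dvd_of_pow_eq_one ((hpow n hn).1 h))

/-- the values at the primes are units -/
lemma v_psi [IsPrincipalIdealRing R] (hR : QR R ω) {f : R} {ψ : Ideal R → ℂ}
    (hψ : HC 1 (sp f) ψ) {p : ℕ} (hp : p.Prime)
    {Γ : Type} [LinearOrderedCommGroupWithZero Γ] {v : Valuation ℂ Γ} (hv : v (p : ℂ) < 1)
    {P : Ideal R} (hP : P.IsMaximal) (hP0 : P ≠ ⊥) (hfP : IsCoprime (sp f) P) (hpP : (p : R) ∉ P) :
    v (ψ P) = 1 := by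
  obtain ⟨b1, -, b3, b4, b5, b6, b7, b8, b9⟩ := lbasic R ω hR
  obtain ⟨π, rfl⟩ : ∃ π : R, P = sp π :=
    ⟨_, (Submodule.IsPrincipal.span_singleton_generator P).symm⟩
  have hπ : π ≠ 0 := by
    rintro rfl
    exact hP0 (by simp)
  have hf : f ≠ 0 := by
    rintro rfl
    exact hψ.ne (by simp)
  have hfinF : Finite (R ⧸ sp f) := b1 _ (by rw [Ne, Ideal.span_singleton_eq_bot]; exact hf)
  have hfinP : Finite (R ⧸ sp π) := b1 _ hP0
  have h1 : ¬ p ∣ Nat.card (R ⧸ sp π) := by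
    refine card_of hR hp hP0 fun Q hQ hle => ?_
    rw [← hP.eq_of_le hQ.ne_top hle]
    exact hpP
  have h2 : v (π : ℂ) = 1 := (cp_of hp hv h1).unit (v_R hR)
  have he := ee_eo lfp hR hψ
  have h3 : ee ψ π / π = (ψ (sp π))⁻¹ := ee_div hR hψ hπ
  have h4 : ψ (sp π) ≠ 0 := by
    intro h
    rw [hψ.zero] at h
    rcases h with h | h
    · exact hP0 h
    · exact h hfP.symm
  have h5 : ee ψ π ≠ 0 := by
    intro h
    rw [h, zero_div] at h3
    exact inv_ne_zero h4 h3.symm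
  have h6 : v (ee ψ π) = 1 := he.unit (ee_one hψ) h5
  have h7 := congrArg v h3
  rw [map_div₀, h6, h2, div_one, map_inv₀] at h7
  rw [← inv_inv (v (ψ (sp π))), ← h7, inv_one]

end Pool.Agent.N883.U
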