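import Pool.Agent.N883.U.Alg
import Pool.Agent.TH936.PU.Fin

/-!
# The congruence for the functions of the Hecke characters
-/

set_option autoImplicit false

open Filter
open scoped Topology PeriodPair

namespace Pool.Agent.N883.U

open H667R3 Pool.Agent.W192.HK Pool.Agent.TH936.CM Pool.Agent.TH936.PU
open Pool.Agent.W192.CM (nu)
open Pool.Agent.Y696 (lbasic lfp lcnt ldec lafe lprod)
open Pool.Agent.W245.EB (QB mem_QB)

variable {L : PeriodPair} {R : Subring ℂ}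

/-- `F` is the entire function of the series of `θ` -/
def IsF (θ : Ideal R → ℂ) (F : ℂ → ℂ) : Prop :=
  Differentiable ℂ F ∧
    ∀ z : ℂ, 3 / 2 < z.re → HasSum (fun I : Ideal R => θ I * (nm I : ℂ) ^ (-z)) (F z)

lemma IsF.eq {θ : Ideal R → ℂ} {F G : ℂ → ℂ} (hF : IsF θ F) (hG : IsF θ G) : F = G :=
  entire_eq hF.1 hG.1 (3 / 2) fun z hz => (hF.2 z hz).unique (hG.2 z hz)

lemma exists_IsF [IsPrincipalIdealRing R] {ω : ℂ} (hR : QR R ω) {q : R} {θ : Ideal R → ℂ}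
    (hθ : HC 1 (sp q) θ) : ∃ F, IsF θ F := by
  obtain ⟨F, h1, h2, -⟩ := hlim hR hθ
  exact ⟨F, h1, h2⟩

lemma tend_IsF [IsPrincipalIdealRing R] {ω : ℂ} (hR : QR R ω) {q : R} {θ : Ideal R → ℂ}
    (hθ : HC 1 (sp q) θ) {F : ℂ → ℂ} (hF : IsF θ F) :
    Tendsto (SS (ee θ)) (𝓝[>] 0) (𝓝 ((nu R : ℂ) * (starRingEnd ℂ) (F 1))) := by
  obtain ⟨G, h1, h2, h3⟩ := hlim hR hθ
  rwa [hF.eq ⟨h1, h2⟩]

/-- the Euler factors -/
lemma ee_div {ω : ℂ} (hR : QR R ω) {f : R} {ψ : Ideal R → ℂ} (hψ : HC 1 (sp f) ψ) {α : R}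
    (hα : α ≠ 0) : ee ψ α / α = (ψ (sp α))⁻¹ := by
  have hψ' : HC (2 * 1 - 1) (sp f) ψ := hψ
  have hqt := hψ'.ne_top le_rfl
  obtain ⟨-, -, f3, f4, -⟩ := lfp R ω hR 1 (sp f) ψ hψ hqt
  have hα0 := coe_ne hα
  by_cases h : IsCoprime (sp α) (sp f)
  · have h1 := f4 α h
    have h2 : fp 1 ψ α ≠ 0 := by
      intro h0
      rw [h0, norm_zero] at h1
      exact zero_ne_one h1
    have h3 : (starRingEnd ℂ) (fp 1 ψ α) * fp 1 ψ α = 1 := by
      rw [← Complex.normSq_eq_conj_mul_self, Complex.normSq_eq_norm_sq, h1]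
      simp
    have h4 : fp 1 ψ α = ψ (sp α) / α := by
      unfold fp
      rw [pow_one]
    have h5 : ψ (sp α) ≠ 0 := by
      intro h0
      rw [h4, h0, zero_div] at h2
      exact h2 rfl
    have h6 : ee ψ α = α / ψ (sp α) := by
      unfold ee
      rw [eq_div_iff h5]
      rw [h4] at h3 ⊢
      have h7 : (starRingEnd ℂ) (ψ (sp α) / α) * ψ (sp α) =
          ((starRingEnd ℂ) (ψ (sp α) / α) * (ψ (sp α) / α)) * α := by
        field_simp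
      rw [h7, h3, one_mul]
    rw [h6]
    field_simp
  · have h1 : ψ (sp α) = 0 := (hψ.zero _).2 (Or.inr h)
    unfold ee fp
    rw [h1]
    simp

lemma ee_mul_xb (ψ χ : Ideal R → ℂ) (α : R) :
    ee (fun I => ψ I * χ I) α = ee ψ α * xb χ α := by
  unfold ee xb fp
  rw [← map_mul]
  congr 1
  ring

/-- **algebraicity** -/
theorem alg_fin [IsPrincipalIdealRing R] {ω : ℂ} (hR : QR R ω) {f : R} {ψ : Ideal R → ℂ}
    (hψ : HC 1 (sp f) ψ) {F : ℂ → ℂ} (hF : IsF ψ F) {Ω : ℂ} (hL : IsLat L R Ω)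
    (h2 : IsAlgebraic ℚ L.g₂) (h3 : IsAlgebraic ℚ L.g₃) :
    IsAlgebraic ℚ ((starRingEnd ℂ) (F 1) / Ω) := by
  classical
  obtain ⟨b1, -, b3, b4, b5, b6, b7, b8, b9⟩ := lbasic R ω hR
  have hf : f ≠ 0 := by
    rintro rfl
    exact hψ.ne (by simp)
  have hsp : ∀ q : R, q ≠ 0 → sp q ≠ ⊥ := fun q hq => by
    rw [Ne, Ideal.span_singleton_eq_bot]
    exact hq
  have hfin : ∀ q : R, q ≠ 0 → Finite (R ⧸ sp q) := fun q hq => b1 _ (hsp q hq)
  have hfinF : Finite (R ⧸ sp f) := hfin f hf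
  have : Fintype (R ⧸ sp f) := Fintype.ofFinite _
  have hnu0 : (nu R : ℂ) ≠ 0 := by
    have h9 : nu R ≠ 0 := by
      have hU : Finite Rˣ := b9
      unfold nu
      exact Nat.card_pos.ne'
    exact_mod_cast h9
  have h4 := l_alg hL h2 h3 (fun r => mem_QB.2 (alg_R hR r)) hfin b5 hf (ee_eo lfp hR hψ)
    (ee_one hψ) (tend_IsF hR hψ hF)
  have h5 : (starRingEnd ℂ) (F 1) / Ω =
      ((nu R : ℂ) * (starRingEnd ℂ) (F 1) / Ω) / (nu R : ℂ) := by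
    field_simp
  rw [h5, ← mem_QB]
  exact div_mem h4 (natCast_mem _ _)

/-- **the congruence** -/
theorem cong_fin [IsPrincipalIdealRing R] {ω : ℂ} (hR : QR R ω) {f : R} {ψ : Ideal R → ℂ}
    (hψ : HC 1 (sp f) ψ) {F₀ : ℂ → ℂ} (hF₀ : IsF ψ F₀) {p : ℕ} (hp : p.Prime) (hp2 : p ≠ 2)
    (hpf : ¬ p ∣ Nat.card (R ⧸ sp f)) (hpu : ¬ p ∣ Nat.card Rˣ)
    {Γ : Type} [LinearOrderedCommGroupWithZero Γ] {v : Valuation ℂ Γ} (hv : v (p : ℂ) < 1)
    {Ω : ℂ} (hL : IsLat L R Ω) (hG : Gd v L) {c : R} (hfc : IsCoprime (sp f) (sp c))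
    {χ : Ideal R → ℂ} (hχ : HC 0 (sp c) χ) (hpc : ¬ p ∣ Nat.card (R ⧸ sp c)) {k : ℕ}
    (hχp : ∀ I, χ I ≠ 0 → χ I ^ p ^ k = 1) {F : ℂ → ℂ} (hF : IsF (fun I => ψ I * χ I) F)
    {S : Finset (Ideal R)} (hS : ∀ P : Ideal R, P ∈ S ↔ P.IsMaximal ∧ c ∈ P) :
    v ((starRingEnd ℂ) (F 1) / Ω) ≤ 1 ∧ v ((starRingEnd ℂ) (F₀ 1) / Ω) ≤ 1 ∧
      v ((starRingEnd ℂ) (F 1) / Ω -
        (starRingEnd ℂ) (F₀ 1) / Ω * ∏ P ∈ S, (1 - (ψ P)⁻¹)) < 1 := by
  classical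
  obtain ⟨b1, -, b3, b4, b5, b6, b7, b8, b9⟩ := lbasic R ω hR
  have hf : f ≠ 0 := by
    rintro rfl
    exact hψ.ne (by simp)
  have hc : c ≠ 0 := by
    rintro rfl
    exact hχ.ne (by simp)
  have hsp : ∀ q : R, q ≠ 0 → sp q ≠ ⊥ := fun q hq => by
    rw [Ne, Ideal.span_singleton_eq_bot]
    exact hq
  have hfin : ∀ q : R, q ≠ 0 → Finite (R ⧸ sp q) := fun q hq => b1 _ (hsp q hq)
  have hfinF : Finite (R ⧸ sp f) := hfin f hf
  have hfinC : Finite (R ⧸ sp c) := hfin c hc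
  have : Fintype (R ⧸ sp f) := Fintype.ofFinite _
  have : Fintype (R ⧸ sp c) := Fintype.ofFinite _
  have hfc' : IsCoprime f c := (Ideal.isCoprime_span_singleton_iff f c).1 hfc
  have hvnu : v (nu R : ℂ) = 1 := v_nat_prime hp hv hpu
  have hnu0 : (nu R : ℂ) ≠ 0 := by
    intro h0
    rw [h0, map_zero] at hvnu
    exact zero_ne_one hvnu
  have he := ee_eo lfp hR hψ
  have he1 := ee_one hψ
  have hl := tend_IsF hR hψ hF₀
  have hRv : ∀ r : R, v (r : ℂ) ≤ 1 := v_R hR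
  have hdiv : ∀ x : ℂ, v ((nu R : ℂ) * x / Ω) = v (x / Ω) := by
    intro x
    rw [mul_div_assoc, map_mul, hvnu, one_mul]
  by_cases hct : sp c = ⊤
  · have hw := w_int hL hG hRv hfin b5 hf hp hv hpf he he1 hl
    have hle : v ((starRingEnd ℂ) (F₀ 1) / Ω) ≤ 1 := by
      have hcpf : Cp v f := cp_of hp hv hpf
      have vf : v (f : ℂ) = 1 := hcpf.unit hRv
      have e1 : (f : ℂ) / Ω * ((nu R : ℂ) * (starRingEnd ℂ) (F₀ 1)) =
          f * ((nu R : ℂ) * (starRingEnd ℂ) (F₀ 1) / Ω) := by ring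
      rw [e1, map_mul, vf, one_mul, hdiv] at hw
      exact hw
    have hχ1 : ∀ I : Ideal R, I ≠ ⊥ → χ I = 1 := by
      intro I hI
      obtain ⟨α, rfl⟩ : ∃ α : R, I = sp α :=
        ⟨_, (Submodule.IsPrincipal.span_singleton_generator I).symm⟩
      have hα : α ≠ 0 := by
        rintro rfl
        exact hI (by simp)
      rw [hχ.princ α hα (by rw [hct]; trivial), pow_zero]
    have e1 : (fun I => ψ I * χ I) = ψ := by
      funext I
      by_cases hI : I = ⊥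
      · rw [hI, (hψ.zero ⊥).2 (Or.inl rfl), zero_mul]
      · rw [hχ1 I hI, mul_one]
    rw [e1] at hF
    have e2 : F = F₀ := hF.eq hF₀
    have e3 : S = ∅ := by
      rw [Finset.eq_empty_iff_forall_notMem]
      intro P hP
      obtain ⟨h1, h2⟩ := (hS P).1 hP
      apply h1.ne_top
      rw [← top_le_iff, ← hct, Ideal.span_singleton_le_iff_mem]
      exact h2
    rw [e2, e3]
    simp only [Finset.prod_empty, mul_one, sub_self, map_zero]
    exact ⟨hle, hle, zero_lt_one⟩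
  · have hprod : HC 1 (sp f * sp c) (fun I => ψ I * χ I) :=
      lprod R ω hR 1 (sp f) (sp c) ψ χ hψ hχ hfc
    rw [Ideal.span_singleton_mul_span_singleton] at hprod
    have hl' := tend_IsF hR hprod hF
    have e1 : ee (fun I => ψ I * χ I) = fun α => ee ψ α * xb χ α := by
      funext α
      exact ee_mul_xb ψ χ α
    rw [e1] at hl'
    have hx := xb_xo lfp hR hχ hct
    have hxu : ∀ α : R, xb χ α ≠ 0 ↔ IsCoprime α c := by
      intro α
      unfold xb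
      rw [Ne, map_eq_zero, hχ.zero, not_or, not_not, Ideal.isCoprime_span_singleton_iff,
        Ideal.span_singleton_eq_bot]
      constructor
      · exact fun h => h.2
      · intro h
        refine ⟨?_, h⟩
        rintro rfl
        rw [isCoprime_zero_left] at h
        exact hct (Ideal.span_singleton_eq_top.2 h)
    have hxp : ∀ α : R, xb χ α ≠ 0 → xb χ α ^ p ^ k = 1 := by
      intro α hα
      unfold xb at hα ⊢
      rw [Ne, map_eq_zero] at hα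
      rw [← map_pow, hχp _ hα, map_one]
    have hgen : ∀ P : Ideal R, P = sp (Submodule.IsPrincipal.generator P) := fun P =>
      (Submodule.IsPrincipal.span_singleton_generator P).symm
    obtain ⟨c1, c2, c3⟩ := cong hL hG hRv hfin b5 hf hc hfc' hct hp hp2 hv hpf hpc he he1 hl
      hx hxu hxp hl' hS (fun P => Submodule.IsPrincipal.generator P) (fun P _ => hgen P)
    rw [hdiv] at c1 c2
    refine ⟨c1, c2, ?_⟩
    have e2 : ∏ P ∈ S, (1 - ee ψ (Submodule.IsPrincipal.generator P) /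
        ((Submodule.IsPrincipal.generator P : R) : ℂ)) = ∏ P ∈ S, (1 - (ψ P)⁻¹) := by
      refine Finset.prod_congr rfl fun P hP => ?_
      have hne : (Submodule.IsPrincipal.generator P : R) ≠ 0 := by
        intro h0
        have h1 := hgen P
        rw [h0] at h1
        have h2 := ((hS P).1 hP).2
        rw [h1, Ideal.mem_span_singleton, zero_dvd_iff] at h2
        exact hc h2
      rw [ee_div hR hψ hne, ← hgen P]
    rw [e2] at c3
    have e3 : (nu R : ℂ) * (starRingEnd ℂ) (F 1) / Ω -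
        (nu R : ℂ) * (starRingEnd ℂ) (F₀ 1) / Ω * ∏ P ∈ S, (1 - (ψ P)⁻¹) =
        (nu R : ℂ) * ((starRingEnd ℂ) (F 1) / Ω -
          (starRingEnd ℂ) (F₀ 1) / Ω * ∏ P ∈ S, (1 - (ψ P)⁻¹)) := by ring
    rw [e3, map_mul, hvnu, one_mul] at c3
    exact c3

/-- **non-vanishing** -/
theorem nonvan [IsPrincipalIdealRing R] {ω : ℂ} (hR : QR R ω) {f : R} {ψ : Ideal R → ℂ}
    (hψ : HC 1 (sp f) ψ) {F₀ : ℂ → ℂ} (hF₀ : IsF ψ F₀) {p : ℕ} (hp : p.Prime) (hp2 : p ≠ 2)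
    (hpf : ¬ p ∣ Nat.card (R ⧸ sp f)) (hpu : ¬ p ∣ Nat.card Rˣ)
    {Γ : Type} [LinearOrderedCommGroupWithZero Γ] {v : Valuation ℂ Γ} (hv : v (p : ℂ) < 1)
    {Ω : ℂ} (hL : IsLat L R Ω) (hG : Gd v L) (h1 : v ((starRingEnd ℂ) (F₀ 1) / Ω) = 1) {c : R}
    (hfc : IsCoprime (sp f) (sp c))
    {χ : Ideal R → ℂ} (hχ : HC 0 (sp c) χ) (hpc : ¬ p ∣ Nat.card (R ⧸ sp c)) {k : ℕ}
    (hχp : ∀ I, χ I ≠ 0 → χ I ^ p ^ k = 1) {F : ℂ → ℂ} (hF : IsF (fun I => ψ I * χ I) F)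
    {S : Finset (Ideal R)} (hS : ∀ P : Ideal R, P ∈ S ↔ P.IsMaximal ∧ c ∈ P)
    (h2 : ∀ P ∈ S, v (1 - (ψ P)⁻¹) = 1) :
    v ((starRingEnd ℂ) (F 1) / Ω) = 1 := by
  obtain ⟨-, -, c3⟩ := cong_fin hR hψ hF₀ hp hp2 hpf hpu hv hL hG hfc hχ hpc hχp hF hS
  have h3 : v ((starRingEnd ℂ) (F₀ 1) / Ω * ∏ P ∈ S, (1 - (ψ P)⁻¹)) = 1 := by
    rw [map_mul, h1, one_mul, map_prod]
    exact Finset.prod_eq_one h2
  have h4 : (starRingEnd ℂ) (F 1) / Ω = ((starRingEnd ℂ) (F 1) / Ω -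
        (starRingEnd ℂ) (F₀ 1) / Ω * ∏ P ∈ S, (1 - (ψ P)⁻¹)) +
        (starRingEnd ℂ) (F₀ 1) / Ω * ∏ P ∈ S, (1 - (ψ P)⁻¹) := by ring
  rw [h4, Valuation.map_add_eq_of_lt_right _ (by rw [h3]; exact c3), h3]

end Pool.Agent.N883.U
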