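import Pool.Agent.N883.U.Fin
import Mathlib.NumberTheory.LegendreSymbol.JacobiSymbol
import Mathlib.NumberTheory.LSeries.PrimesInAP
import Mathlib.NumberTheory.MulChar.Lemmas

/-!
# Inert primes
-/

set_option autoImplicit false

open scoped NumberTheorySymbols

namespace Pool.Agent.N883.U

open Pool.Agent.W192.HK Pool.Agent.TH936.CM Pool.Agent.TH936.PU
open Pool.Agent.Y696 (lbasic)

/-- `-m` is not a square modulo a prime that is `-1` modulo `8 m` -/
theorem nonsq {l m : ℕ} (hl : l.Prime) (hm : 0 < m) (h : 8 * m ∣ l + 1) :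
    ¬ IsSquare (((-(m : ℤ) : ℤ)) : ZMod l) := by
  apply ZMod.nonsquare_of_jacobiSym_eq_neg_one
  have h8 : l % 8 = 7 := by
    have : 8 ∣ l + 1 := (Dvd.intro m rfl).trans h
    omega
  have hodd : Odd l := by
    rw [Nat.odd_iff]
    omega
  obtain ⟨a, n, hn, rfl⟩ := Nat.exists_eq_two_pow_mul_odd hm.ne'
  have e1 : (-((2 ^ a * n : ℕ) : ℤ)) = (-1) * (2 ^ a * (n : ℤ)) := by
    push_cast
    ring
  rw [e1, jacobiSym.mul_left, jacobiSym.mul_left, jacobiSym.pow_left, jacobiSym.at_neg_one hodd,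
    jacobiSym.at_two hodd]
  have h4 : l % 4 = 3 := by omega
  have e2 : ZMod.χ₄ (l : ZMod 4) = -1 := ZMod.χ₄_nat_three_mod_four h4
  have e3 : ZMod.χ₈ (l : ZMod 8) = 1 := by
    rw [ZMod.χ₈_nat_eq_if_mod_eight]
    have : ¬ l % 2 = 0 := by omega
    rw [if_neg this, if_pos (Or.inr h8)]
  rw [e2, e3, one_pow, one_mul]
  -- the odd part
  have hnl : n ∣ l + 1 := ((Dvd.intro_left (2 ^ a) rfl).trans (Dvd.intro_left 8 rfl)).trans h
  have e4 : J((l : ℤ) | n) = J(-1 | n) := by
    apply jacobiSym.mod_left'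
    apply Int.emod_emod_of_dvd _ (dvd_refl _) |>.symm.trans
    rw [Int.emod_emod_of_dvd _ (dvd_refl _)]
    apply Int.emod_emod_of_dvd _ (dvd_refl _) |>.symm.trans
    rw [Int.emod_emod_of_dvd _ (dvd_refl _)]
    apply Int.ModEq.symm
    rw [Int.modEq_iff_dvd]
    have : (n : ℤ) ∣ ((l + 1 : ℕ) : ℤ) := by exact_mod_cast hnl
    push_cast at this
    simpa using this
  have e5 : J((n : ℤ) | l) = 1 := by
    rcases Nat.odd_mod_four_iff.mp (Nat.odd_iff.1 hn) with h1 | h3
    · rw [jacobiSym.quadratic_reciprocity_one_mod_four h1 hodd, e4, jacobiSym.at_neg_one hn,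
        ZMod.χ₄_nat_one_mod_four h1]
    · rw [jacobiSym.quadratic_reciprocity_three_mod_four h3 h4, e4, jacobiSym.at_neg_one hn,
        ZMod.χ₄_nat_three_mod_four h3]
      norm_num
  rw [e5]
  norm_num

variable {R : Subring ℂ} {ω : ℂ}

/-- the discriminant -/
lemma exists_disc (hR : QR R ω) : ∃ (m : ℕ) (y : ℤ), 0 < m ∧ ∀ r : R, ∃ a b : ℤ,
    4 * Complex.normSq (r : ℂ) = ((2 * a + b * y) ^ 2 + m * b ^ 2 : ℤ) := by
  have h1 : ω ∈ R := QR.om_mem hR
  obtain ⟨x, y, h⟩ := (hR.mem _).1 (R.mul_mem h1 h1)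
  have him := hR.im
  have hre := congrArg Complex.re h
  have him2 := congrArg Complex.im h
  simp only [Complex.mul_re, Complex.mul_im, Complex.add_re, Complex.add_im, Complex.intCast_re,
    Complex.intCast_im, zero_mul, sub_zero, add_zero, zero_add] at hre him2
  have h3 : 2 * ω.re = y := by
    have : ω.im * (2 * ω.re - y) = 0 := by linear_combination him2
    rcases mul_eq_zero.1 this with h4 | h4
    · exact absurd h4 him.ne'
    · linarith
  have h4 : ((-(y ^ 2 + 4 * x) : ℤ) : ℝ) = 4 * ω.im ^ 2 := by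
    push_cast
    linear_combination 4 * hre - (2 * ω.re - y) * h3
  have h5 : 0 < -(y ^ 2 + 4 * x) := by
    have : (0 : ℝ) < ((-(y ^ 2 + 4 * x) : ℤ) : ℝ) := by
      rw [h4]
      positivity
    exact_mod_cast this
  obtain ⟨m, hm⟩ := Int.eq_ofNat_of_zero_le h5.le
  refine ⟨m, y, ?_, fun r => ?_⟩
  · rw [hm] at h5
    exact_mod_cast h5
  · obtain ⟨a, b, hab⟩ := (hR.mem r).1 r.2
    refine ⟨a, b, ?_⟩
    have h6 : ((m : ℤ) : ℝ) = 4 * ω.im ^ 2 := by rw [← h4, hm]
    rw [hab]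
    push_cast
    push_cast at h6
    rw [h6, Complex.normSq_apply]
    simp only [Complex.mul_re, Complex.mul_im, Complex.add_re, Complex.add_im, Complex.intCast_re,
      Complex.intCast_im, zero_mul, sub_zero, add_zero, zero_add]
    rw [← h3]
    ring

/-- **inert primes** -/
theorem inert [IsPrincipalIdealRing R] (hR : QR R ω) : ∃ m : ℕ, 0 < m ∧ ∀ l : ℕ, l.Prime →
    8 * m ∣ l + 1 → (sp (l : R)).IsMaximal := by
  obtain ⟨b1, -, b3, b4, b5, b6, b7, b8, b9⟩ := lbasic R ω hR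
  obtain ⟨m, y, hm, hd⟩ := exists_disc hR
  refine ⟨m, hm, fun l hl hdvd => ?_⟩
  have h8 : l % 8 = 7 := by
    have : 8 ∣ l + 1 := (Dvd.intro m rfl).trans hdvd
    omega
  have hsq := nonsq hl hm hdvd
  have hnm : ∀ r : R, nm (sp r) = Complex.normSq (r : ℂ) := b5
  have hl1 : nm (sp (l : R)) = (l : ℝ) ^ 2 := by
    rw [hnm]
    push_cast
    rw [Complex.normSq_natCast]
    ring
  have hl0 : (l : ℝ) ≠ 0 := by exact_mod_cast hl.ne_zero
  have hne : sp (l : R) ≠ ⊤ := by
    intro h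
    rw [← b7, hl1] at h
    have : (l : ℝ) = 1 := by
      have h2 : ((l ^ 2 : ℕ) : ℝ) = ((1 : ℕ) : ℝ) := by push_cast; exact h
      have h3 : l ^ 2 = 1 := by exact_mod_cast h2
      have h4 : l = 1 := by
        rcases Nat.pow_eq_one.1 h3 with h5 | h5
        · exact h5
        · omega
      rw [h4]
      norm_num
    have h2 : l = 1 := by exact_mod_cast this
    exact hl.one_lt.ne' h2
  obtain ⟨M, hM, hle⟩ := Ideal.exists_le_maximal _ hne
  obtain ⟨π, rfl⟩ : ∃ π : R, M = sp π :=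
    ⟨_, (Submodule.IsPrincipal.span_singleton_generator M).symm⟩
  rw [Ideal.span_singleton_le_iff_mem] at hle
  obtain ⟨β, hβ⟩ := Ideal.mem_span_singleton'.1 hle
  have hmul : nm (sp β) * nm (sp π) = (l : ℝ) ^ 2 := by
    rw [← hl1, hnm, hnm, hnm, ← hβ]
    push_cast
    rw [Complex.normSq_mul]
  have hmulN : Nat.card (R ⧸ sp β) * Nat.card (R ⧸ sp π) = l ^ 2 := by
    have : (((Nat.card (R ⧸ sp β) * Nat.card (R ⧸ sp π) : ℕ)) : ℝ) = ((l ^ 2 : ℕ) : ℝ) := by
      push_cast
      exact hmul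
    exact_mod_cast this
  have hπ1 : Nat.card (R ⧸ sp π) ≠ 1 := by
    intro h
    apply hM.ne_top
    rw [← b7]
    unfold nm
    rw [h, Nat.cast_one]
  by_cases hβ1 : Nat.card (R ⧸ sp β) = 1
  · have h2 : sp β = ⊤ := by
      rw [← b7]
      unfold nm
      rw [hβ1, Nat.cast_one]
    have h3 : sp (l : R) = sp π := by
      have h4 : sp β * sp π = sp (β * π) := Ideal.span_singleton_mul_span_singleton β π
      rw [← hβ, ← h4, h2, Ideal.top_mul]
    rw [h3]
    exact hM
  · exfalso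
    have h2 : Nat.card (R ⧸ sp π) = l := by
      have h3 : Nat.card (R ⧸ sp π) ∣ l ^ 2 := Dvd.intro_left _ hmulN
      rcases (Nat.dvd_prime_pow hl).1 h3 with ⟨j, hj, hj2⟩
      interval_cases j
      · rw [pow_zero] at hj2
        exact absurd hj2 hπ1
      · rw [hj2, pow_one]
      · exfalso
        apply hβ1
        rw [hj2] at hmulN
        have h5 : 0 < l ^ 2 := pow_pos hl.pos 2
        exact Nat.eq_of_mul_eq_mul_right h5 (by rw [hmulN, one_mul])
    obtain ⟨a, b, hab⟩ := hd π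
    have h3 : Complex.normSq (π : ℂ) = l := by
      rw [← hnm]
      unfold nm
      rw [h2]
    rw [h3] at hab
    have h4 : (4 * l : ℤ) = (2 * a + b * y) ^ 2 + m * b ^ 2 := by exact_mod_cast hab
    have : Fact l.Prime := ⟨hl⟩
    have h5 : (0 : ZMod l) = (2 * a + b * y) ^ 2 + m * b ^ 2 := by
      have h6 := congrArg (Int.cast : ℤ → ZMod l) h4
      push_cast at h6
      rw [CharP.cast_eq_zero, mul_zero] at h6
      exact h6
    by_cases hb : (b : ZMod l) = 0
    · rw [hb] at h5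
      have h6 : ((2 * a + b * y : ℤ) : ZMod l) = 0 := by
        push_cast
        rw [hb]
        have h7 : ((2 : ZMod l) * a + 0 * y) ^ 2 = 0 := by
          linear_combination -h5
        exact pow_eq_zero_iff two_ne_zero |>.1 h7
      rw [ZMod.intCast_zmod_eq_zero_iff_dvd] at h6
      have h7 : (l : ℤ) ∣ b := (ZMod.intCast_zmod_eq_zero_iff_dvd b l).1 hb
      obtain ⟨s, hs⟩ := h6
      obtain ⟨t, ht⟩ := h7
      have h8' : (l : ℤ) * 4 = l * (l * (s ^ 2 + m * t ^ 2)) := by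
        rw [mul_comm, h4, hs, ht]
        ring
      have h9 : (4 : ℤ) = l * (s ^ 2 + m * t ^ 2) :=
        mul_left_cancel₀ (by exact_mod_cast hl.ne_zero) h8'
      have h10 : (l : ℤ) ∣ 4 := ⟨_, h9⟩
      have h11 : l ∣ 4 := by exact_mod_cast h10
      have h12 : l ≤ 4 := Nat.le_of_dvd (by norm_num) h11
      omega
    · apply hsq
      refine ⟨((2 * a + b * y : ℤ) : ZMod l) / b, ?_⟩
      push_cast
      field_simp
      linear_combination h5

end Pool.Agent.N883.U
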