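import Pool.Agent.N883.U.Exi
import Pool.Agent.Y916.EW
import Pool.Agent.Y153.HE.QP

/-!
# Horizontal stability: the final statement
-/

set_option autoImplicit false

open Filter
open scoped Topology PeriodPair

namespace Pool.Agent.N883.U

open H667R3 Pool.Agent.W192.HK Pool.Agent.TH936.CM Pool.Agent.TH936.PU
open Pool.Agent.Y696 (lbasic lfp lcnt ldec lafe lprod)
open Pool.Agent.N883.Q (v_root_q exists_over_q)

variable {R : Subring ℂ} {ω : ℂ}

lemma gd_of {L : PeriodPair} {p : ℕ} (hp : p.Prime) (hp2 : p ≠ 2)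
    {Γ : Type} [LinearOrderedCommGroupWithZero Γ] {v : Valuation ℂ Γ} (hv : v (p : ℂ) < 1)
    (h2 : v L.g₂ ≤ 1) (h3 : v L.g₃ ≤ 1) (hd : v (L.g₂ ^ 3 - 27 * L.g₃ ^ 2) = 1) : Gd v L := by
  refine ⟨?_, h2, h3, hd⟩
  have h1 : v ((2 : ℕ) : ℂ) = 1 := by
    refine v_nat_prime hp hv fun h => hp2 ?_
    exact (Nat.prime_dvd_prime_iff_eq hp Nat.prime_two).1 h
  exact_mod_cast h1

/-- the maximal ideals containing an ideal -/
lemma exists_S (hR : QR R ω) {c : Ideal R} (hc : c ≠ ⊥) :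
    ∃ S : Finset (Ideal R), ∀ P : Ideal R, P ∈ S ↔ P.IsMaximal ∧ c ≤ P := by
  classical
  have hfin : Finite (R ⧸ c) := (lbasic R ω hR).1 c hc
  have hfin2 : {P : Ideal R | P.IsMaximal ∧ c ≤ P}.Finite := by
    have h1 : Finite (Ideal (R ⧸ c)) := Finite.of_injective
      (fun I : Ideal (R ⧸ c) => (I : Set (R ⧸ c))) SetLike.coe_injective
    have h2 : Set.InjOn (fun P : Ideal R => P.map (Ideal.Quotient.mk c))
        {P : Ideal R | P.IsMaximal ∧ c ≤ P} := by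
      rintro P ⟨-, hP⟩ Q ⟨-, hQ⟩ h
      have h3 := congrArg (Ideal.comap (Ideal.Quotient.mk c)) h
      simp only at h3
      rw [Ideal.comap_map_of_surjective _ Ideal.Quotient.mk_surjective,
        Ideal.comap_map_of_surjective _ Ideal.Quotient.mk_surjective, ← RingHom.ker_eq_comap_bot,
        Ideal.mk_ker, sup_eq_left.2 hP, sup_eq_left.2 hQ] at h3
      exact h3
    exact Set.Finite.of_finite_image (Set.toFinite _) h2
  refine ⟨hfin2.toFinset, fun P => ?_⟩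
  rw [Set.Finite.mem_toFinset]
  exact Iff.rfl

lemma exists_gen [IsPrincipalIdealRing R] (I : Ideal R) : ∃ α : R, I = sp α :=
  ⟨_, (Submodule.IsPrincipal.span_singleton_generator I).symm⟩

/-- **Horizontal stability** -/
theorem stable [IsPrincipalIdealRing R] (hR : QR R ω) {f : R} {ψ : Ideal R → ℂ}
    (hψ : HC 1 (sp f) ψ) {F₀ : ℂ → ℂ} (hF₀ : IsF ψ F₀) (h0 : F₀ 1 ≠ 0) :
    ∃ N : ℕ, N ≠ 0 ∧ ∀ p : ℕ, p.Prime → ¬ p ∣ N →
      (∀ (Γ : Type) [LinearOrderedCommGroupWithZero Γ] (v : Valuation ℂ Γ), v (p : ℂ) < 1 →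
        ∀ (c : Ideal R) (χ : Ideal R → ℂ) (F : ℂ → ℂ) (k : ℕ), IsCoprime (sp f) c → HC 0 c χ →
          (∀ I, χ I ≠ 0 → χ I ^ p ^ k = 1) →
          (∀ P : Ideal R, P.IsMaximal → c ≤ P → (p : R) ∉ P ∧ v (ψ P - 1) = 1) →
          IsF (fun I => ψ I * χ I) F → F 1 ≠ 0) ∧
      (∀ k : ℕ, 0 < k → ∃ T : Set ℕ, T.Infinite ∧
        (∀ l ∈ T, l.Prime ∧ (sp (l : R)).IsMaximal ∧
          ∃ χ : Ideal R → ℂ, HC 0 (sp (l : R)) χ ∧ Od χ (p ^ k)) ∧
        ∀ (c : Ideal R) (χ : Ideal R → ℂ) (F : ℂ → ℂ) (j : ℕ), HC 0 c χ →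
          (∀ I, χ I ≠ 0 → χ I ^ p ^ j = 1) →
          (∀ P : Ideal R, P.IsMaximal → c ≤ P → ∃ l ∈ T, P = sp (l : R)) →
          IsCoprime (sp f) c ∧ (IsF (fun I => ψ I * χ I) F → F 1 ≠ 0)) := by
  classical
  obtain ⟨b1, -, b3, b4, b5, b6, b7, b8, b9⟩ := lbasic R ω hR
  have hf : f ≠ 0 := by
    rintro rfl
    exact hψ.ne (by simp)
  have hfinF : Finite (R ⧸ sp f) := b1 _ (by rw [Ne, Ideal.span_singleton_eq_bot]; exact hf)
  have hUfin : Finite Rˣ := b9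
  obtain ⟨L, Ω, hL, ha2, ha3⟩ := exists_alg_lattice hR
  have hΩ := hL.ne
  have halg := alg_fin hR hψ hF₀ hL ha2 ha3
  have hne : (starRingEnd ℂ) (F₀ 1) / Ω ≠ 0 :=
    div_ne_zero (by rw [Ne, map_eq_zero]; exact h0) hΩ
  obtain ⟨N1, hN1, hu1⟩ := alg_unit halg hne
  -- the invariants
  have hdisc : L.g₂ ^ 3 - 27 * L.g₃ ^ 2 ≠ 0 :=
    Pool.Agent.Y916.Hy.disc_ne Pool.Agent.Y153.HE.t_qp L
  have hdalg : IsAlgebraic ℚ (L.g₂ ^ 3 - 27 * L.g₃ ^ 2) := by
    rw [← Pool.Agent.W245.EB.mem_QB]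
    have e2 := Pool.Agent.W245.EB.mem_QB.2 ha2
    have e3 := Pool.Agent.W245.EB.mem_QB.2 ha3
    exact sub_mem (pow_mem e2 3) (mul_mem (ofNat_mem _ _) (pow_mem e3 2))
  obtain ⟨N2, hN2, hu2⟩ := alg_unit hdalg hdisc
  have hun : ∀ a : ℂ, IsAlgebraic ℚ a → ∃ N : ℕ, N ≠ 0 ∧
      ∀ p : ℕ, p.Prime → ¬ p ∣ N → ∀ (Γ : Type) [LinearOrderedCommGroupWithZero Γ]
        (v : Valuation ℂ Γ), v (p : ℂ) < 1 → v a ≤ 1 := by
    intro a ha
    by_cases ha0 : a = 0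
    · refine ⟨1, one_ne_zero, fun p _ _ Γ _ v _ => ?_⟩
      rw [ha0, map_zero]
      exact zero_le_one
    · obtain ⟨N, hN, h⟩ := alg_unit ha ha0
      exact ⟨N, hN, fun p hp hpN Γ _ v hv => (h p hp hpN Γ v hv).le⟩
  obtain ⟨N3, hN3, hu3⟩ := hun _ ha2
  obtain ⟨N4, hN4, hu4⟩ := hun _ ha3
  obtain ⟨m, hm, hinert⟩ := inert hR
  have hcf : 0 < Nat.card (R ⧸ sp f) := Nat.card_pos
  have hcu : 0 < Nat.card Rˣ := Nat.card_pos
  refine ⟨2 * m * Nat.card (R ⧸ sp f) * Nat.card Rˣ * N1 * N2 * N3 * N4, by positivity, ?_⟩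
  intro p hp hpN
  have hp2 : p ≠ 2 := by
    rintro rfl
    exact hpN (Dvd.dvd.mul_right (Dvd.dvd.mul_right (Dvd.dvd.mul_right (Dvd.dvd.mul_right
      (Dvd.dvd.mul_right (Dvd.dvd.mul_right (Dvd.intro m rfl) _) _) _) _) _) _)
  have hpm : ¬ p ∣ m := fun h => hpN (Dvd.dvd.mul_right (Dvd.dvd.mul_right (Dvd.dvd.mul_right
    (Dvd.dvd.mul_right (Dvd.dvd.mul_right (Dvd.dvd.mul_right (Dvd.dvd.mul_left h 2) _) _) _) _)
      _) _)
  have hpf : ¬ p ∣ Nat.card (R ⧸ sp f) := fun h => hpN (Dvd.dvd.mul_right (Dvd.dvd.mul_right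
    (Dvd.dvd.mul_right (Dvd.dvd.mul_right (Dvd.dvd.mul_right (Dvd.dvd.mul_left h _) _) _) _) _) _)
  have hpu : ¬ p ∣ Nat.card Rˣ := fun h => hpN (Dvd.dvd.mul_right (Dvd.dvd.mul_right
    (Dvd.dvd.mul_right (Dvd.dvd.mul_right (Dvd.dvd.mul_left h _) _) _) _) _)
  have hp1 : ¬ p ∣ N1 := fun h => hpN (Dvd.dvd.mul_right (Dvd.dvd.mul_right
    (Dvd.dvd.mul_right (Dvd.dvd.mul_left h _) _) _) _)
  have hp2' : ¬ p ∣ N2 := fun h => hpN (Dvd.dvd.mul_right (Dvd.dvd.mul_right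
    (Dvd.dvd.mul_left h _) _) _)
  have hp3 : ¬ p ∣ N3 := fun h => hpN (Dvd.dvd.mul_right (Dvd.dvd.mul_left h _) _)
  have hp4 : ¬ p ∣ N4 := fun h => hpN (Dvd.dvd.mul_left h _)
  have key : ∀ (Γ : Type) [LinearOrderedCommGroupWithZero Γ] (v : Valuation ℂ Γ),
      v (p : ℂ) < 1 → ∀ (c : Ideal R) (χ : Ideal R → ℂ) (F : ℂ → ℂ) (k : ℕ),
        IsCoprime (sp f) c → HC 0 c χ → (∀ I, χ I ≠ 0 → χ I ^ p ^ k = 1) →
          (∀ P : Ideal R, P.IsMaximal → c ≤ P → (p : R) ∉ P ∧ v (ψ P - 1) = 1) →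
          IsF (fun I => ψ I * χ I) F → F 1 ≠ 0 := by
    intro Γ _ v hv c χ F k hfc hχ hχp hP hF hF1
    have hG : Gd v L := gd_of hp hp2 hv (hu3 p hp hp3 Γ v hv) (hu4 p hp hp4 Γ v hv)
      (hu2 p hp hp2' Γ v hv)
    have hpc : ¬ p ∣ Nat.card (R ⧸ c) := card_of hR hp hχ.ne fun P hPm hle => (hP P hPm hle).1
    obtain ⟨S, hS⟩ := exists_S hR hχ.ne
    obtain ⟨c, rfl⟩ := exists_gen c
    have h1 := nonvan hR hψ hF₀ hp hp2 hpf hpu hv hL hG (hu1 p hp hp1 Γ v hv) hfc hχ hpc hχp hF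
      (S := S) (fun P => by rw [hS, Ideal.span_singleton_le_iff_mem]) (fun P hPS => by
        obtain ⟨g1, g2⟩ := (hS P).1 hPS
        obtain ⟨g3, g4⟩ := hP P g1 g2
        have g5 : P ≠ ⊥ := by
          rintro rfl
          rw [le_bot_iff] at g2
          exact hχ.ne g2
        have g6 : IsCoprime (sp f) P := by
          rw [Ideal.isCoprime_iff_sup_eq] at hfc ⊢
          rw [← top_le_iff, ← hfc]
          exact sup_le_sup_left g2 _
        have g7 := v_psi hR hψ hp hv g1 g5 g6 g3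
        have g8 : ψ P ≠ 0 := by
          intro h
          rw [h, map_zero] at g7
          exact zero_ne_one g7
        have g9 : 1 - (ψ P)⁻¹ = (ψ P - 1) / ψ P := by
          field_simp
        rw [g9, map_div₀, g4, g7, div_one])
    rw [hF1, map_zero, zero_div, map_zero] at h1
    exact zero_ne_one h1
  refine ⟨key, fun k hk => ?_⟩
  -- the residue class
  set M : ℕ := 8 * m * Nat.card (R ⧸ sp f) with hM
  have hM0 : M ≠ 0 := by positivity
  have hpM : ¬ p ∣ M := by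
    intro h
    rw [hM] at h
    rcases (hp.dvd_mul).1 h with h | h
    · rcases (hp.dvd_mul).1 h with h | h
      · have h8 : p ∣ 2 ^ 3 := by norm_num; exact h
        exact hp2 ((Nat.prime_dvd_prime_iff_eq hp Nat.prime_two).1 (hp.dvd_of_dvd_pow h8))
      · exact hpm h
    · exact hpf h
  have hcop : Nat.Coprime M (p ^ k) :=
    Nat.Coprime.pow_right k ((Nat.Prime.coprime_iff_not_dvd hp).2 hpM).symm
  obtain ⟨t, ht1, ht2⟩ := Nat.chineseRemainder hcop (M - 1) 1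
  have hM1 : 1 ≤ M := Nat.one_le_iff_ne_zero.2 hM0
  have ht1' : M ∣ t + 1 := by
    have h1 : t + 1 ≡ M - 1 + 1 [MOD M] := ht1.add_right 1
    rw [Nat.sub_add_cancel hM1] at h1
    exact (Nat.modEq_zero_iff_dvd).1 (h1.trans (by simp [Nat.ModEq]))
  have hpk0 : p ^ k ≠ 0 := pow_ne_zero _ hp.ne_zero
  have hMp : NeZero (M * p ^ k) := ⟨mul_ne_zero hM0 hpk0⟩
  have htu : IsUnit (t : ZMod (M * p ^ k)) := by
    rw [ZMod.isUnit_iff_coprime, Nat.coprime_mul_iff_right]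
    constructor
    · have h1 : Nat.Coprime t (t + 1) := by simp
      exact Nat.Coprime.coprime_dvd_right ht1' h1
    · have h1 : Nat.gcd t (p ^ k) = Nat.gcd 1 (p ^ k) := Nat.ModEq.gcd_eq ht2
      rw [Nat.gcd_one_left] at h1
      exact h1
  set T : Set ℕ := {l : ℕ | l.Prime ∧ (l : ZMod (M * p ^ k)) = (t : ZMod (M * p ^ k))} with hT
  have hTinf : T.Infinite := Nat.infinite_setOfPred_prime_and_eq_mod htu
  have hT1 : ∀ l ∈ T, M ∣ l + 1 ∧ p ^ k ∣ l - 1 := by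
    rintro l ⟨hl, hlt⟩
    rw [ZMod.natCast_eq_natCast_iff] at hlt
    constructor
    · have h1 : l ≡ t [MOD M] := Nat.ModEq.of_mul_right _ hlt
      have h2 : l + 1 ≡ t + 1 [MOD M] := h1.add_right 1
      exact (Nat.modEq_zero_iff_dvd).1 (h2.trans ((Nat.modEq_zero_iff_dvd).2 ht1'))
    · have h1 : l ≡ t [MOD p ^ k] := Nat.ModEq.of_mul_left _ hlt
      exact (Nat.modEq_iff_dvd' hl.one_lt.le).1 (h1.trans ht2).symm
  have hTm : ∀ l ∈ T, (sp (l : R)).IsMaximal := by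
    intro l hl
    refine hinert l hl.1 ((Dvd.intro _ rfl).trans (hT1 l hl).1)
  refine ⟨T, hTinf, fun l hl => ⟨hl.1, hTm l hl, exists_chi hR hp hk hpu hl.1 (hTm l hl)
    (hT1 l hl).2⟩, ?_⟩
  intro c χ F j hχ hχp hP
  -- the conductor
  have hfl : ∀ l ∈ T, ((-(l : R)) - 1) ∈ sp f := by
    intro l hl
    obtain ⟨s, hs⟩ := (Dvd.intro_left _ rfl : Nat.card (R ⧸ sp f) ∣ M).trans (hT1 l hl).1
    have h1 : (-(l : R)) - 1 = -(s : R) * ((Nat.card (R ⧸ sp f) : ℕ) : R) := by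
      have h2 : ((l + 1 : ℕ) : R) = ((Nat.card (R ⧸ sp f) * s : ℕ) : R) := by rw [hs]
      push_cast at h2
      linear_combination -h2
    rw [h1]
    exact Ideal.mul_mem_left _ _ (Pool.Agent.TH936.PU.card_mem f)
  have hfP : ∀ l ∈ T, IsCoprime (sp f) (sp (l : R)) := by
    intro l hl
    rw [Ideal.isCoprime_span_singleton_iff]
    obtain ⟨s, hs⟩ := Ideal.mem_span_singleton'.1 (hfl l hl)
    exact ⟨-s, -1, by linear_combination -hs⟩
  have hfc : IsCoprime (sp f) c := by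
    rw [Ideal.isCoprime_iff_sup_eq]
    by_contra hcon
    obtain ⟨Q, hQ, hle⟩ := Ideal.exists_le_maximal _ hcon
    obtain ⟨l, hl, rfl⟩ := hP Q hQ (le_sup_right.trans hle)
    have h1 := hfP l hl
    rw [Ideal.isCoprime_iff_sup_eq] at h1
    apply hQ.ne_top
    rw [← top_le_iff, ← h1]
    exact sup_le (le_sup_left.trans hle) le_rfl
  refine ⟨hfc, fun hF => ?_⟩
  obtain ⟨V, hV⟩ := exists_over_q hp
  refine key _ V.valuation hV c χ F j hfc hχ hχp (fun P hPm hle => ?_) hF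
  obtain ⟨l, hl, rfl⟩ := hP P hPm hle
  have hl1 := (hT1 l hl).2
  have hlp : l ≠ p := by
    rintro rfl
    have h1 : l ∣ l - 1 := (dvd_pow_self l hk.ne').trans hl1
    have h2 := Nat.le_of_dvd (by have := hp.one_lt; omega) h1
    have := hp.one_lt
    omega
  constructor
  · intro hmem
    have h1 : Nat.Coprime l p := (Nat.coprime_primes hl.1 hp).2 hlp
    have h2 : IsCoprime (l : ℤ) (p : ℤ) := Nat.isCoprime_iff_coprime.2 h1
    obtain ⟨a, b, hab⟩ := h2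
    apply (hTm l hl).ne_top
    rw [Ideal.eq_top_iff_one]
    have h3 : (1 : R) = (a : R) * (l : R) + (b : R) * (p : R) := by
      have h4 := congrArg (Int.cast : ℤ → R) hab
      push_cast at h4
      exact h4.symm
    rw [h3]
    exact add_mem (Ideal.mul_mem_left _ _ (Ideal.mem_span_singleton_self _))
      (Ideal.mul_mem_left _ _ hmem)
  · have hl0 : (-(l : R)) ≠ 0 := by
      intro h
      have h1 := congrArg Subtype.val h
      push_cast at h1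
      have h2 : (l : ℂ) ≠ 0 := by exact_mod_cast hl.1.ne_zero
      exact h2 (neg_eq_zero.1 h1)
    have h1 : ψ (sp (l : R)) = -(l : ℂ) := by
      have h2 := hψ.princ (-(l : R)) hl0 (hfl l hl)
      have h3 : sp (-(l : R)) = sp (l : R) := Ideal.span_singleton_neg _
      rw [h3, pow_one] at h2
      rw [h2]
      push_cast
      rfl
    have h2 : ψ (sp (l : R)) - 1 = -(((l - 1 : ℕ) : ℂ) + ((2 : ℕ) : ℂ)) := by
      rw [h1]
      push_cast [Nat.cast_sub hl.1.one_lt.le]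
      ring
    have h3 : V.valuation ((2 : ℕ) : ℂ) = 1 :=
      v_nat_prime hp hV fun h => hp2 ((Nat.prime_dvd_prime_iff_eq hp Nat.prime_two).1 h)
    have h4 : V.valuation ((l - 1 : ℕ) : ℂ) < 1 := by
      obtain ⟨s, hs⟩ := (dvd_pow_self p hk.ne').trans hl1
      rw [hs]
      push_cast
      rw [map_mul]
      calc V.valuation (p : ℂ) * V.valuation (s : ℂ) ≤ V.valuation (p : ℂ) * 1 := by
            gcongr
            exact v_nat s
        _ < 1 := by rw [mul_one]; exact hV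
    rw [h2, Valuation.map_neg, Valuation.map_add_eq_of_lt_right _ (by rw [h3]; exact h4), h3]

end Pool.Agent.N883.U
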