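import Pool.Agent.N883.U.Sum

/-!
# Removal of finitely many Euler factors
-/

set_option autoImplicit false

open Filter
open scoped Topology PeriodPair

namespace Pool.Agent.N883.U

open H667R3 Pool.Agent.W192.HK Pool.Agent.TH936.CM Pool.Agent.TH936.PU
open Pool.Agent.W192.CM (nu)

variable {L : PeriodPair} {R : Subring ℂ} {Ω : ℂ}

open Classical in
/-- removal of the elements of the ideals in `S` -/
noncomputable def rmv (S : Finset (Ideal R)) (e : R → ℂ) (α : R) : ℂ :=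
  if ∃ P ∈ S, α ∈ P then 0 else e α

lemma rmv_mul {S : Finset (Ideal R)} (hS : ∀ P ∈ S, P.IsMaximal) {e : R → ℂ}
    (hm : ∀ x y, e (x * y) = e x * e y) (x y : R) : rmv S e (x * y) = rmv S e x * rmv S e y := by
  classical
  unfold rmv
  by_cases hx : ∃ P ∈ S, x ∈ P
  · obtain ⟨P, hP, hxP⟩ := hx
    rw [if_pos ⟨P, hP, P.mul_mem_right y hxP⟩, if_pos ⟨P, hP, hxP⟩, zero_mul]
  · by_cases hy : ∃ P ∈ S, y ∈ P
    · obtain ⟨P, hP, hyP⟩ := hy
      rw [if_pos ⟨P, hP, P.mul_mem_left x hyP⟩, if_neg hx, if_pos ⟨P, hP, hyP⟩, mul_zero]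
    · rw [if_neg hx, if_neg hy, if_neg, hm]
      rintro ⟨P, hP, hxy⟩
      rcases (hS P hP).isPrime.mem_or_mem hxy with h | h
      · exact hx ⟨P, hP, h⟩
      · exact hy ⟨P, hP, h⟩

lemma rmv_bd {S : Finset (Ideal R)} {e : R → ℂ} (hb : ∀ x, ‖e x‖ ≤ 1) (x : R) :
    ‖rmv S e x‖ ≤ 1 := by
  classical
  unfold rmv
  split_ifs
  · simp
  · exact hb x

lemma rmv_insert {S : Finset (Ideal R)} [DecidableEq (Ideal R)]
    {P : Ideal R} {e : R → ℂ} {π : R} (hP : P = sp π) :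
    rmv (insert P S) e = fun α => @ite _ (α ∈ sp π) (Classical.propDecidable _) 0
      (rmv S e α) := by
  classical
  funext α
  unfold rmv
  by_cases h : α ∈ sp π
  · rw [if_pos h, if_pos ⟨P, Finset.mem_insert_self _ _, hP ▸ h⟩]
  · rw [if_neg h]
    congr 1
    rw [eq_iff_iff]
    constructor
    · rintro ⟨Q, hQ, hα⟩
      rcases Finset.mem_insert.1 hQ with rfl | hQ
      · exact absurd (hP ▸ hα) h
      · exact ⟨Q, hQ, hα⟩
    · rintro ⟨Q, hQ, hα⟩
      exact ⟨Q, Finset.mem_insert_of_mem hQ, hα⟩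

lemma rmv_gen {S : Finset (Ideal R)} (hS : ∀ P ∈ S, P.IsMaximal) {P : Ideal R}
    (hPm : P.IsMaximal) (hP : P ∉ S) {e : R → ℂ} {π : R} (hπ : P = sp π) :
    rmv S e π = e π := by
  classical
  unfold rmv
  rw [if_neg]
  rintro ⟨Q, hQ, h⟩
  apply hP
  have h1 : P ≤ Q := by
    rw [hπ, Ideal.span_singleton_le_iff_mem]
    exact h
  have h2 : P = Q := hPm.eq_of_le (hS Q hQ).ne_top h1
  rwa [h2]

/-- the limit after removal of the primes in `S` -/
theorem lim_rmv (hL : IsLat L R Ω) {e : R → ℂ} (hm : ∀ x y, e (x * y) = e x * e y)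
    (hb : ∀ x, ‖e x‖ ≤ 1) (g : Ideal R → R) {l : ℂ}
    (hl : Tendsto (SS e) (𝓝[>] 0) (𝓝 l)) (S : Finset (Ideal R)) (hS : ∀ P ∈ S, P.IsMaximal)
    (hg : ∀ P ∈ S, P = sp (g P)) (h0 : ∀ P ∈ S, g P ≠ 0) :
    Tendsto (SS (rmv S e)) (𝓝[>] 0) (𝓝 (l * ∏ P ∈ S, (1 - e (g P) / g P))) := by
  classical
  induction S using Finset.induction_on with
  | empty =>
    have : rmv ∅ e = e := by
      funext α
      unfold rmv
      simp
    rw [this]
    simpa using hl
  | insert P S hP ih =>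
    rw [rmv_insert (hg P (Finset.mem_insert_self _ _)), Finset.prod_insert hP]
    have hS' : ∀ Q ∈ S, Q.IsMaximal := fun Q hQ => hS Q (Finset.mem_insert_of_mem hQ)
    have ih' := ih hS' (fun Q hQ => hg Q (Finset.mem_insert_of_mem hQ))
      (fun Q hQ => h0 Q (Finset.mem_insert_of_mem hQ))
    have h1 := lim_rm hL (rmv_mul hS' hm) (rmv_bd hb) (h0 P (Finset.mem_insert_self _ _)) ih'
    rw [rmv_gen hS' (hS P (Finset.mem_insert_self _ _)) hP (hg P (Finset.mem_insert_self _ _))]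
      at h1
    convert h1 using 2
    ring

end Pool.Agent.N883.U
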