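import Mathlib
import Pool.Agent.TH936.PU.Fin
import Pool.Agent.Y696.Lib

/-!
# Regularized sums of products of two periodic functions, with a main term
-/

set_option autoImplicit false

open Filter
open scoped Topology PeriodPair

namespace Pool.Agent.N883.U

open H667R3 Pool.Agent.W192.HK Pool.Agent.TH936.CM Pool.Agent.TH936.PU
open Pool.Agent.W192.CM (nu)

variable {L : PeriodPair} {R : Subring ℂ} {Ω : ℂ}

/-- functions modulo `c` that are multiplied by `k` by the multiplication of the argument by `f` -/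
structure Xh (f c : R) (χ : R → ℂ) (k : ℂ) : Prop where
  per : ∀ x y : R, x - y ∈ sp c → χ x = χ y
  mulf : ∀ x : R, χ (x * f) = χ x * k
  zero : ∀ x ∈ sp c, χ x = 0
  bd : ∀ x : R, ‖χ x‖ ≤ 1

/-- the sum over the points of order `f` -/
noncomputable def WW (Ω : ℂ) (f : R) [Fintype (R ⧸ sp f)] (e : R → ℂ) (δ : ℝ) : ℂ :=
  ∑ y : R ⧸ sp f, e y.out * EE R Ω δ (Ω * y.out / f)

lemma summ_e (hL : IsLat L R Ω) {e : R → ℂ} (he : ∀ x, ‖e x‖ ≤ 1)
    {δ : ℝ} (hδ : 0 < δ) : Summable (fun α : R => e α * fd δ (α : ℂ)) := by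
  have hΩ := hL.ne
  have h1 : Summable (fun α : R => δ⁻¹ * (‖0 + Ω * (α : ℂ)‖ ^ 3)⁻¹ * ‖Ω‖ ^ 3) :=
    ((summ3 hL 0).mul_left δ⁻¹).mul_right _
  refine Summable.of_norm_bounded h1 fun α => ?_
  rw [norm_mul]
  refine (mul_le_mul (he α) (fd_bound δ hδ _) (norm_nonneg _) zero_le_one).trans ?_
  rw [one_mul, zero_add, norm_mul, mul_pow, mul_inv]
  have h5 : (‖Ω‖ ^ 3)⁻¹ * ‖Ω‖ ^ 3 = 1 := inv_mul_cancel₀ (pow_ne_zero 3 (norm_ne_zero_iff.2 hΩ))
  refine le_of_eq ?_
  calc δ⁻¹ * (‖(α : ℂ)‖ ^ 3)⁻¹ = δ⁻¹ * (‖(α : ℂ)‖ ^ 3)⁻¹ * ((‖Ω‖ ^ 3)⁻¹ * ‖Ω‖ ^ 3) := by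
        rw [h5, mul_one]
    _ = _ := by ring

/-- the formula for positive `δ` -/
theorem key_SS (hL : IsLat L R Ω) {f c : R} (hf : f ≠ 0) (hc : c ≠ 0) (hfc : IsCoprime f c)
    (hfin : ∀ q : R, q ≠ 0 → Finite (R ⧸ sp q))
    [Fintype (R ⧸ sp f)] [Fintype (R ⧸ sp c)] {e χ : R → ℂ} {k : ℂ}
    (he : Eo f e) (hχ : Xh f c χ k) {δ : ℝ} (hδ : 0 < δ) :
    SS (fun α => e α * χ α) δ =
      Ω / (f * c) * (e c * k) * (∑ x : R ⧸ sp c, χ x.out * ((1 / 2) *
        ∑ y : R ⧸ sp f, e y.out *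
          (EE R Ω (δ * Complex.normSq ((f * c : R) : ℂ) / Complex.normSq Ω)
            (Ω * y.out / f + Ω * x.out / c) +
          EE R Ω (δ * Complex.normSq ((f * c : R) : ℂ) / Complex.normSq Ω)
            (Ω * y.out / f - Ω * x.out / c) -
            2 * EE R Ω (δ * Complex.normSq ((f * c : R) : ℂ) / Complex.normSq Ω)
              (Ω * y.out / f))) +
        (∑ x : R ⧸ sp c, χ x.out) *
          WW Ω f e (δ * Complex.normSq ((f * c : R) : ℂ) / Complex.normSq Ω)) := by
  have hf0 := coe_ne hf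
  have hc0 := coe_ne hc
  have hfc0 : f * c ≠ 0 := mul_ne_zero hf hc
  have hΩ := hL.ne
  set δ' : ℝ := δ * Complex.normSq ((f * c : R) : ℂ) / Complex.normSq Ω with hδ'
  have hfinfc : Finite (R ⧸ sp (f * c)) := hfin _ hfc0
  have : Fintype (R ⧸ sp (f * c)) := Fintype.ofFinite _
  have hb : ∀ α : R, ‖e α * χ α‖ ≤ 1 := fun α => by
    rw [norm_mul]
    exact mul_le_one₀ (he.bd α) (norm_nonneg _) (hχ.bd α)
  have hperf : ∀ x y : R, x - y ∈ sp (f * c) → e x = e y := fun x y h =>
    he.per x y (by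
      rw [Ideal.mem_span_singleton'] at h ⊢
      obtain ⟨b, hb⟩ := h
      exact ⟨b * c, by linear_combination hb⟩)
  have hperc : ∀ x y : R, x - y ∈ sp (f * c) → χ x = χ y := fun x y h =>
    hχ.per x y (by
      rw [Ideal.mem_span_singleton'] at h ⊢
      obtain ⟨b, hb⟩ := h
      exact ⟨b * f, by linear_combination hb⟩)
  have hs : Summable (fun α : R => (e α * χ α) * fd δ (α : ℂ)) := summ_e hL hb hδ
  have h1 := sum_EEA hL (f * c) hfc0 (fun α => e α * χ α)
    (fun x y h => by rw [hperf x y h, hperc x y h]) hs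
  unfold SS
  rw [h1, sum_rep _ (bij_crt hfc) (fun r : R => e r * χ r *
    EE R Ω (δ * Complex.normSq ((f * c : R) : ℂ) / Complex.normSq Ω)
      (Ω * r / ((f * c : R) : ℂ)))]
  · rw [Fintype.sum_prod_type]
    have e1 : ∀ x : R ⧸ sp c, ∀ y : R ⧸ sp f,
        e (x.out * f + y.out * c) * χ (x.out * f + y.out * c) *
          EE R Ω (δ * Complex.normSq ((f * c : R) : ℂ) / Complex.normSq Ω)
            (Ω * ((x.out * f + y.out * c : R) : ℂ) / ((f * c : R) : ℂ)) =
        (e c * k) * (χ x.out * (e y.out *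
          EE R Ω δ' (Ω * y.out / f + Ω * x.out / c))) := by
      intro x y
      have a1 : e (x.out * f + y.out * c) = e y.out * e c := by
        rw [← he.mul]
        refine he.per _ _ ?_
        rw [add_sub_cancel_right, Ideal.mem_span_singleton']
        exact ⟨x.out, rfl⟩
      have a2 : χ (x.out * f + y.out * c) = χ x.out * k := by
        rw [← hχ.mulf]
        refine hχ.per _ _ ?_
        rw [add_sub_cancel_left, Ideal.mem_span_singleton']
        exact ⟨y.out, rfl⟩
      have a3 : Ω * ((x.out * f + y.out * c : R) : ℂ) / ((f * c : R) : ℂ) =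
          Ω * y.out / f + Ω * x.out / c := by
        push_cast
        field_simp
        ring
      rw [a1, a2, a3]
      ring
    simp only [e1]
    simp only [← Finset.mul_sum]
    have e2 : ∀ x : R ⧸ sp c, ∑ y : R ⧸ sp f, e y.out *
        EE R Ω δ' (Ω * y.out / f + Ω * x.out / c) = _ :=
      fun x => inner_eq hL hf he δ' (Ω * x.out / c)
    simp only [e2, mul_add, Finset.sum_add_distrib]
    rw [← Finset.sum_mul]
    unfold WW
    push_cast
    ring
  · intro x y hxy
    rw [hperf x y hxy, hperc x y hxy]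
    congr 1
    apply EE_per hL
    have := (div_mem_iff hL hfc0 (x - y)).2 hxy
    convert this using 1
    push_cast
    ring

lemma SS_e (hL : IsLat L R Ω) {f : R} (hf : f ≠ 0) [Fintype (R ⧸ sp f)] {e : R → ℂ}
    (he : Eo f e) {δ : ℝ} (hδ : 0 < δ) :
    SS e δ = Ω / f * WW Ω f e (δ * Complex.normSq (f : ℂ) / Complex.normSq Ω) := by
  have hs : Summable (fun α : R => e α * fd δ (α : ℂ)) := summ_e hL he.bd hδ
  exact sum_EEA hL f hf e he.per hs

lemma tend_scale {a : ℝ} (ha : 0 < a) : Tendsto (fun δ : ℝ => δ * a) (𝓝[>] 0) (𝓝[>] 0) := by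
  rw [tendsto_nhdsWithin_iff]
  constructor
  · have h7 : Continuous (fun δ : ℝ => δ * a) := by fun_prop
    have h8 := (h7.tendsto 0).mono_left (nhdsWithin_le_nhds (s := Set.Ioi 0))
    simpa using h8
  · filter_upwards [self_mem_nhdsWithin] with δ (hδ : 0 < δ)
    show 0 < δ * a
    positivity

/-- the sum `WW` has a limit -/
lemma WW_lim (hL : IsLat L R Ω) {f : R} (hf : f ≠ 0) [Fintype (R ⧸ sp f)] {e : R → ℂ}
    (he : Eo f e) {l : ℂ} (hl : Tendsto (SS e) (𝓝[>] 0) (𝓝 l)) :
    Tendsto (WW Ω f e) (𝓝[>] 0) (𝓝 (f / Ω * l)) := by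
  have hΩ := hL.ne
  have hf0 := coe_ne hf
  have h3 : (0 : ℝ) < Complex.normSq (f : ℂ) := Complex.normSq_pos.2 hf0
  have h4 : 0 < Complex.normSq Ω := Complex.normSq_pos.2 hΩ
  have h5 := (hl.comp (tend_scale (a := Complex.normSq Ω / Complex.normSq (f : ℂ))
    (by positivity))).const_mul ((f : ℂ) / Ω)
  refine h5.congr' ?_
  filter_upwards [self_mem_nhdsWithin] with δ (hδ : 0 < δ)
  have h6 := SS_e hL hf he (δ := δ * (Complex.normSq Ω / Complex.normSq (f : ℂ)))
    (by positivity)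
  simp only [Function.comp_apply]
  rw [h6]
  have e2 : δ * (Complex.normSq Ω / Complex.normSq (f : ℂ)) *
      Complex.normSq (f : ℂ) / Complex.normSq Ω = δ := by
    field_simp
  rw [e2]
  field_simp

/-- the limit of the regularized sum -/
theorem lim_gen (hL : IsLat L R Ω) {f c : R} (hf : f ≠ 0) (hc : c ≠ 0) (hfc : IsCoprime f c)
    (hfin : ∀ q : R, q ≠ 0 → Finite (R ⧸ sp q))
    [Fintype (R ⧸ sp f)] [Fintype (R ⧸ sp c)] {e χ : R → ℂ} {k : ℂ}
    (he : Eo f e) (hχ : Xh f c χ k) {w : ℂ}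
    (hw : Tendsto (WW Ω f e) (𝓝[>] 0) (𝓝 w)) :
    Tendsto (SS (fun α => e α * χ α)) (𝓝[>] 0)
      (𝓝 (Ω / (f * c) * (e c * k) *
        (∑ x : R ⧸ sp c, χ x.out * HH L Ω f e (Ω * x.out / c) +
        (∑ x : R ⧸ sp c, χ x.out) * w))) := by
  have hΩ := hL.ne
  have hfc0 : f * c ≠ 0 := mul_ne_zero hf hc
  have hf0 := coe_ne hf
  have hc0 := coe_ne hc
  have hΩn : 0 < Complex.normSq Ω := Complex.normSq_pos.2 hΩ
  have hqn : 0 < Complex.normSq ((f * c : R) : ℂ) := Complex.normSq_pos.2 (coe_ne hfc0)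
  have hδt := tend_scale (a := Complex.normSq ((f * c : R) : ℂ) / Complex.normSq Ω)
    (by positivity)
  have e0 : ∀ δ : ℝ, δ * (Complex.normSq ((f * c : R) : ℂ) / Complex.normSq Ω) =
      δ * Complex.normSq ((f * c : R) : ℂ) / Complex.normSq Ω := fun δ => by ring
  simp only [e0] at hδt
  refine Tendsto.congr' (f₁ := fun δ => Ω / (f * c) * (e c * k) *
    (∑ x : R ⧸ sp c, χ x.out * ((1 / 2) *
        ∑ y : R ⧸ sp f, e y.out *
          (EE R Ω (δ * Complex.normSq ((f * c : R) : ℂ) / Complex.normSq Ω)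
            (Ω * y.out / f + Ω * x.out / c) +
          EE R Ω (δ * Complex.normSq ((f * c : R) : ℂ) / Complex.normSq Ω)
            (Ω * y.out / f - Ω * x.out / c) -
            2 * EE R Ω (δ * Complex.normSq ((f * c : R) : ℂ) / Complex.normSq Ω)
              (Ω * y.out / f))) +
        (∑ x : R ⧸ sp c, χ x.out) *
          WW Ω f e (δ * Complex.normSq ((f * c : R) : ℂ) / Complex.normSq Ω))) ?_ ?_
  · filter_upwards [self_mem_nhdsWithin] with δ (hδ : 0 < δ)
    exact (key_SS hL hf hc hfc hfin he hχ hδ).symm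
  refine Tendsto.const_mul _ (Tendsto.add (tendsto_finsetSum _ fun x _ => ?_)
    (Tendsto.const_mul _ (hw.comp hδt)))
  by_cases hx : x.out ∈ sp c
  · simp only [hχ.zero _ hx, zero_mul]
    exact tendsto_const_nhds
  · refine Tendsto.const_mul _ ?_
    unfold HH
    refine Tendsto.const_mul _ (tendsto_finsetSum _ fun y _ => ?_)
    by_cases hy : y.out ∈ sp f
    · simp only [he.zero hy, zero_mul]
      exact tendsto_const_nhds
    · refine Tendsto.const_mul _ ?_
      have hw' : Ω * y.out / f ∉ L.lattice := by rwa [div_mem_iff hL hf]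
      have hu : Ω * x.out / c ∉ L.lattice := by rwa [div_mem_iff hL hc]
      have hcop : ∀ r : R, y.out * c + r * f ∉ sp (f * c) := by
        intro r h
        obtain ⟨a, b, hab⟩ := hfc
        rw [Ideal.mem_span_singleton'] at h
        obtain ⟨t, ht⟩ := h
        apply hy
        rw [Ideal.mem_span_singleton']
        exact ⟨a * y.out + b * (t * c - r), by linear_combination b * ht + y.out * hab⟩
      have h1 : Ω * y.out / f + Ω * x.out / c ∉ L.lattice := by
        have h3 := hcop x.out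
        rw [← div_mem_iff hL hfc0] at h3
        convert h3 using 2
        push_cast
        field_simp
      have h2 : Ω * y.out / f - Ω * x.out / c ∉ L.lattice := by
        have h3 := hcop (-x.out)
        rw [← div_mem_iff hL hfc0] at h3
        convert h3 using 2
        push_cast
        field_simp
        ring
      exact (lim_Dd hL hw' hu h1 h2).comp hδt

open Classical in
/-- removal of the multiples of one element -/
lemma SS_rm (hL : IsLat L R Ω) {e : R → ℂ} (hm : ∀ x y, e (x * y) = e x * e y)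
    (hb : ∀ x, ‖e x‖ ≤ 1) {π : R} (hπ : π ≠ 0) {δ : ℝ} (hδ : 0 < δ) :
    SS (fun α => if α ∈ sp π then 0 else e α) δ =
      SS e δ - e π / π * SS e (δ * Complex.normSq (π : ℂ)) := by
  have hπ0 := coe_ne hπ
  have hn : 0 < Complex.normSq (π : ℂ) := Complex.normSq_pos.2 hπ0
  have hs := summ_e hL hb hδ
  have hinj : Function.Injective (fun β : R => π * β) := mul_right_injective₀ hπ
  set h1 : R → ℂ := fun α => if α ∈ sp π then e α * fd δ (α : ℂ) else 0 with hh1
  have e1 : ∀ α : R, (if α ∈ sp π then 0 else e α) * fd δ (α : ℂ) =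
      e α * fd δ (α : ℂ) - h1 α := by
    intro α
    rw [hh1]
    simp only
    split_ifs <;> ring
  have e2 : ∀ β : R, h1 (π * β) = e π / π * (e β * fd (δ * Complex.normSq (π : ℂ)) (β : ℂ)) := by
    intro β
    rw [hh1]
    simp only
    rw [if_pos (Ideal.mul_mem_right _ _ (Ideal.mem_span_singleton_self π)), hm]
    push_cast
    rw [fd_mul]
    field_simp
  have hsupp : Function.support h1 ⊆ Set.range (fun β : R => π * β) := by
    intro α hα
    rw [Function.mem_support, hh1] at hα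
    simp only at hα
    by_contra h
    apply hα
    rw [if_neg]
    intro h2
    rw [Ideal.mem_span_singleton'] at h2
    obtain ⟨b, hb⟩ := h2
    exact h ⟨b, by simp only; rw [mul_comm]; exact hb⟩
  have hs2 : Summable (fun β : R => h1 (π * β)) := by
    simp only [e2]
    exact (summ_e hL hb (δ := δ * Complex.normSq (π : ℂ)) (by positivity)).mul_left _
  have hs1 : Summable h1 := by
    rw [← hinj.summable_iff (f := h1)]
    · exact hs2
    · intro x hx
      by_contra h
      exact hx (hsupp h)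
  have e3 : ∑' α, h1 α = e π / π * SS e (δ * Complex.normSq (π : ℂ)) := by
    rw [← hinj.tsum_eq hsupp]
    simp only [e2]
    rw [tsum_mul_left]
    rfl
  unfold SS at e3 ⊢
  rw [tsum_congr e1, hs.tsum_sub hs1, e3]

open Classical in
lemma lim_rm (hL : IsLat L R Ω) {e : R → ℂ} (hm : ∀ x y, e (x * y) = e x * e y)
    (hb : ∀ x, ‖e x‖ ≤ 1) {π : R} (hπ : π ≠ 0) {l : ℂ} (hl : Tendsto (SS e) (𝓝[>] 0) (𝓝 l)) :
    Tendsto (SS (fun α => if α ∈ sp π then 0 else e α)) (𝓝[>] 0)
      (𝓝 ((1 - e π / π) * l)) := by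
  have hn : 0 < Complex.normSq (π : ℂ) := Complex.normSq_pos.2 (coe_ne hπ)
  have h2 := hl.sub ((hl.comp (tend_scale hn)).const_mul (e π / π))
  have e1 : l - e π / π * l = (1 - e π / π) * l := by ring
  rw [e1] at h2
  refine h2.congr' ?_
  filter_upwards [self_mem_nhdsWithin] with δ (hδ : 0 < δ)
  exact (SS_rm hL hm hb hπ hδ).symm

end Pool.Agent.N883.U
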