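import Pool.Agent.N883.U.Rmv
import Pool.Agent.N883.Q.Val

/-!
# Integrality and congruences of the values at one
-/

set_option autoImplicit false

open Filter
open scoped Topology PeriodPair

namespace Pool.Agent.N883.U

open H667R3 Pool.Agent.W192.HK Pool.Agent.TH936.CM Pool.Agent.TH936.PU
open Pool.Agent.W192.CM (nu)
open Pool.Agent.Y696 (lbasic lfp lcnt ldec lafe lprod)

variable {L : PeriodPair} {R : Subring ℂ} {Ω : ℂ}

/-- the function of a Hecke character on the numbers; the value at one is a limit -/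
theorem hlim [IsPrincipalIdealRing R] {ω : ℂ} (hR : QR R ω) {q : R} {θ : Ideal R → ℂ}
    (hθ : HC 1 (sp q) θ) :
    ∃ F : ℂ → ℂ, Differentiable ℂ F ∧
      (∀ z : ℂ, 3 / 2 < z.re → HasSum (fun I : Ideal R => θ I * (nm I : ℂ) ^ (-z)) (F z)) ∧
      Tendsto (SS (ee θ)) (𝓝[>] 0) (𝓝 ((nu R : ℂ) * (starRingEnd ℂ) (F 1))) := by
  have hfin := (lbasic R ω hR).1
  have hS := sys_pid (hfin (sp q) hθ.ne)
  obtain ⟨F, g1, g2, g3⟩ := lim_L lbasic lfp lcnt ldec lafe hR hθ hS
  refine ⟨F, g1, g2, ?_⟩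
  refine g3.congr fun δ => ?_
  rw [Finset.sum_singleton]
  have t1 : θ ⊤ = 1 := by
    have e1 : (⊤ : Ideal R) = sp 1 := by
      rw [eq_comm, Ideal.span_singleton_eq_top]
      exact isUnit_one
    rw [e1, hθ.princ 1 one_ne_zero (by rw [sub_self]; exact Submodule.zero_mem _)]
    simp
  have t2 : nm (⊤ : Ideal R) = 1 := ((lbasic R ω hR).2.2.2.2.2.2.1 ⊤).2 rfl
  rw [t1, one_mul, t2, div_one]
  congr 1
  funext α
  unfold cb ee
  rw [if_pos Submodule.mem_top]

section val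

variable {Γ : Type} [LinearOrderedCommGroupWithZero Γ] {v : Valuation ℂ Γ} {p : ℕ}

/-- an auxiliary integer -/
lemma exists_aux (hp : p.Prime) {N : ℕ} (hN : ¬ p ∣ N) : ∃ n : ℕ, 1 < n ∧ (N : ℤ) ∣ (n : ℤ) - 1 ∧
    (p : ℤ) ∣ (n : ℤ) + 1 := by
  have hcop : Nat.Coprime N p := ((Nat.Prime.coprime_iff_not_dvd hp).2 hN).symm
  obtain ⟨k, hk1, hk2⟩ := Nat.chineseRemainder hcop 1 (p - 1)
  have hN0 : N ≠ 0 := by
    rintro rfl
    exact hN (dvd_zero p)
  have hp1 := hp.one_lt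
  refine ⟨k + 2 * (N * p), ?_, ?_, ?_⟩
  · have : 0 < N * p := Nat.mul_pos (Nat.pos_of_ne_zero hN0) hp.pos
    omega
  · have h1 : (N : ℤ) ∣ (1 : ℤ) - k := by
      have := (Nat.modEq_iff_dvd.1 hk1)
      exact_mod_cast this
    have h2 : ((k + 2 * (N * p) : ℕ) : ℤ) - 1 = -((1 : ℤ) - k) + N * (2 * p) := by
      push_cast
      ring
    rw [h2]
    exact dvd_add (dvd_neg.2 h1) (dvd_mul_right _ _)
  · have h1 : (p : ℤ) ∣ ((p - 1 : ℕ) : ℤ) - k := Nat.modEq_iff_dvd.1 hk2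
    have h2 : ((k + 2 * (N * p) : ℕ) : ℤ) + 1 = -(((p - 1 : ℕ) : ℤ) - k) + p * (2 * N + 1) := by
      push_cast [Nat.cast_sub hp1.le]
      ring
    rw [h2]
    exact dvd_add (dvd_neg.2 h1) (dvd_mul_right _ _)

lemma v_int_le (m : ℤ) : v (m : ℂ) ≤ 1 := by
  rcases Int.natAbs_eq m with h | h
  · rw [h, Int.cast_natCast]
    exact v_nat _
  · rw [h, Int.cast_neg, Int.cast_natCast, Valuation.map_neg]
    exact v_nat _

lemma v_dvd_lt (hv : v (p : ℂ) < 1) {m : ℤ} (h : (p : ℤ) ∣ m) : v (m : ℂ) < 1 := by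
  obtain ⟨t, rfl⟩ := h
  push_cast
  rw [map_mul]
  calc v (p : ℂ) * v (t : ℂ) ≤ v (p : ℂ) * 1 := by
        gcongr
        exact v_int_le t
    _ < 1 := by rw [mul_one]; exact hv

open Classical in
/-- the values at the division points -/
theorem w_id (hL : IsLat L R Ω) (hfin : ∀ q : R, q ≠ 0 → Finite (R ⧸ sp q))
    (hnm : ∀ a : R, (Nat.card (R ⧸ sp a) : ℝ) = Complex.normSq (a : ℂ))
    {f : R} (hf : f ≠ 0) [Fintype (R ⧸ sp f)] {e : R → ℂ} (he : Eo f e)
    (he1 : e 1 = 1) {l : ℂ} (hl : Tendsto (SS e) (𝓝[>] 0) (𝓝 l)) {n : ℕ} (hn1 : 1 < n)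
    (hn2 : ((Nat.card (R ⧸ sp f) : ℕ) : ℤ) ∣ (n : ℤ) - 1) {a : R} (ha : a = (n : R))
    [Fintype (R ⧸ sp a)] :
    ∑ x : R ⧸ sp a, (if x.out ∈ sp a then 0 else 1) * HH L Ω f e (Ω * x.out / (n : ℂ)) =
      f / Ω * l * (n * (1 - n)) := by
  have hΩ := hL.ne
  have hf0 := coe_ne hf
  have hw := WW_lim hL hf he hl
  set w := (f : ℂ) / Ω * l with hwdef
  have haC : (a : ℂ) = (n : ℂ) := by rw [ha]; push_cast; rfl
  have hn0 : (n : ℂ) ≠ 0 := by
    have : n ≠ 0 := by omega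
    exact_mod_cast this
  have ha0 : a ≠ 0 := by
    intro h
    apply hn0
    rw [← haC, h]
    rfl
  have haf : a - 1 ∈ sp f := by
    obtain ⟨t, ht⟩ := hn2
    have h1 : a - 1 = ((Nat.card (R ⧸ sp f) : ℕ) : R) * ((t : ℤ) : R) := by
      have h2 : (((n : ℤ) - 1 : ℤ) : R) = ((((Nat.card (R ⧸ sp f) : ℕ) : ℤ) * t : ℤ) : R) := by
        rw [ht]
      rw [ha]
      push_cast at h2 ⊢
      exact h2
    rw [h1]
    exact Ideal.mul_mem_right _ _ (card_mem f)
  have hfa : IsCoprime f a := by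
    obtain ⟨t, ht⟩ := Ideal.mem_span_singleton'.1 haf
    exact ⟨-t, 1, by linear_combination -ht⟩
  have hea : e a = 1 := by rw [he.per a 1 haf, he1]
  -- the indicator function
  set χ : R → ℂ := fun x => if x ∈ sp a then 0 else 1 with hχd
  have hχ : Xh f a χ 1 := by
    refine ⟨fun x y h => ?_, fun x => ?_, fun x hx => ?_, fun x => ?_⟩
    · rw [hχd]
      simp only
      have : x ∈ sp a ↔ y ∈ sp a := by
        constructor
        · intro hx
          have := sub_mem hx h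
          rwa [sub_sub_cancel] at this
        · intro hy
          have := add_mem h hy
          rwa [sub_add_cancel] at this
      simp only [this]
    · rw [mul_one, hχd]
      simp only
      have : x * f ∈ sp a ↔ x ∈ sp a := by
        constructor
        · intro h
          rw [Ideal.mem_span_singleton] at h ⊢
          exact hfa.symm.dvd_of_dvd_mul_right h
        · intro h
          exact Ideal.mul_mem_right _ _ h
      simp only [this]
    · rw [hχd]
      simp only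
      rw [if_pos hx]
    · rw [hχd]
      simp only
      split_ifs
      · simp
      · simp
  have l1 := lim_gen hL hf ha0 hfa hfin he hχ hw
  have l2 := lim_rm hL he.mul he.bd ha0 hl
  have e1 : (fun α => e α * χ α) = (fun α => if α ∈ sp a then 0 else e α) := by
    funext α
    rw [hχd]
    simp only
    split_ifs <;> ring
  rw [e1] at l1
  have h3 := tendsto_nhds_unique l1 l2
  rw [hea, haC] at h3
  have hsum : ∑ x : R ⧸ sp a, χ x.out = (n : ℂ) ^ 2 - 1 := by
    have h4 : ∀ x : R ⧸ sp a, χ x.out = 1 - (if x = 0 then 1 else 0) := by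
      intro x
      rw [hχd]
      simp only
      by_cases hx : x = 0
      · rw [if_pos hx, if_pos]
        · ring
        · rw [hx, ← Ideal.Quotient.eq_zero_iff_mem, Ideal.Quotient.mk_out]
      · rw [if_neg hx, if_neg (out_notMem hx)]
        ring
    simp only [h4]
    rw [Finset.sum_sub_distrib, Finset.sum_ite_eq' Finset.univ (0 : R ⧸ sp a) (fun _ => (1 : ℂ))]
    simp only [Finset.mem_univ, if_true, Finset.sum_const, Finset.card_univ, nsmul_eq_mul, mul_one]
    have h5 : ((Fintype.card (R ⧸ sp a) : ℕ) : ℝ) = (n : ℝ) ^ 2 := by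
      rw [← Nat.card_eq_fintype_card, hnm, haC, Complex.normSq_natCast]
      ring
    have h6 : ((Fintype.card (R ⧸ sp a) : ℕ) : ℂ) = (n : ℂ) ^ 2 := by exact_mod_cast h5
    rw [h6]
  have h9 : l = Ω / f * w := by
    rw [hwdef]
    field_simp
  set S := ∑ x : R ⧸ sp a, χ x.out * HH L Ω f e (Ω * x.out / (n : ℂ)) with hS
  have h8 : S = w * (n * (1 - n)) := by
    rw [h9, hsum] at h3
    field_simp at h3
    linear_combination h3
  exact h8

/-- **integrality of the main term** -/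
theorem w_int (hL : IsLat L R Ω) (hG : Gd v L) (hR1 : ∀ r : R, v (r : ℂ) ≤ 1)
    (hfin : ∀ q : R, q ≠ 0 → Finite (R ⧸ sp q))
    (hnm : ∀ a : R, (Nat.card (R ⧸ sp a) : ℝ) = Complex.normSq (a : ℂ))
    {f : R} (hf : f ≠ 0) [Fintype (R ⧸ sp f)] (hp : p.Prime)
    (hv : v (p : ℂ) < 1) (hpf : ¬ p ∣ Nat.card (R ⧸ sp f)) {e : R → ℂ} (he : Eo f e)
    (he1 : e 1 = 1) {l : ℂ} (hl : Tendsto (SS e) (𝓝[>] 0) (𝓝 l)) : v (f / Ω * l) ≤ 1 := by
  classical
  obtain ⟨n, hn1, hn2, hn3⟩ := exists_aux hp hpf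
  have hvn1 : v ((n : ℤ) + 1 : ℂ) < 1 := by
    have := v_dvd_lt hv hn3
    push_cast at this
    exact this
  have hvn : v ((n : ℕ) : ℂ) = 1 := by
    have h1 : ((n : ℕ) : ℂ) = ((n : ℤ) + 1 : ℂ) - 1 := by push_cast; ring
    rw [h1, Valuation.map_sub_eq_of_lt_right _ (by rw [map_one]; exact hvn1), map_one]
  have hvn2 : v (1 - (n : ℂ)) = 1 := by
    have h1 : 1 - (n : ℂ) = 2 - ((n : ℤ) + 1 : ℂ) := by push_cast; ring
    rw [h1, Valuation.map_sub_eq_of_lt_left _ (by rw [hG.two]; exact hvn1), hG.two]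
  -- the auxiliary element
  obtain ⟨a, ha⟩ : ∃ a : R, a = (n : R) := ⟨_, rfl⟩
  have haC : (a : ℂ) = (n : ℂ) := by rw [ha]; push_cast; rfl
  have hn0 : (n : ℂ) ≠ 0 := by
    have : n ≠ 0 := by omega
    exact_mod_cast this
  have ha0 : a ≠ 0 := by
    intro h
    apply hn0
    rw [← haC, h]
    rfl
  have haf : a - 1 ∈ sp f := by
    obtain ⟨t, ht⟩ := hn2
    have h1 : a - 1 = ((Nat.card (R ⧸ sp f) : ℕ) : R) * ((t : ℤ) : R) := by
      have h2 : (((n : ℤ) - 1 : ℤ) : R) = ((((Nat.card (R ⧸ sp f) : ℕ) : ℤ) * t : ℤ) : R) := by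
        rw [ht]
      rw [ha]
      push_cast at h2 ⊢
      exact h2
    rw [h1]
    exact Ideal.mul_mem_right _ _ (card_mem f)
  have hfa : IsCoprime f a := by
    obtain ⟨t, ht⟩ := Ideal.mem_span_singleton'.1 haf
    exact ⟨-t, 1, by linear_combination -ht⟩
  have hcpa : Cp v a := ⟨n, hvn, by rw [ha]; exact Ideal.mem_span_singleton_self _⟩
  have hcpf : Cp v f := cp_of hp hv hpf
  have hfinA : Finite (R ⧸ sp a) := hfin a ha0
  have : Fintype (R ⧸ sp a) := Fintype.ofFinite _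
  have h8 := w_id hL hfin hnm hf he he1 hl hn1 hn2 ha
  have hSle : v (∑ x : R ⧸ sp a, (if x.out ∈ sp a then 0 else 1) *
      HH L Ω f e (Ω * x.out / (n : ℂ))) ≤ 1 := by
    refine v_sum_le _ fun x _ => ?_
    by_cases hx : x = 0
    · rw [if_pos (by rw [hx, ← Ideal.Quotient.eq_zero_iff_mem, Ideal.Quotient.mk_out]), zero_mul,
        map_zero]
      exact zero_le_one
    · have h7 := HH_int hL hG hf ha0 hfa hcpf hcpa he he1 (out_notMem hx)
      rw [haC] at h7
      refine v_mul_le ?_ h7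
      split_ifs
      · simp
      · simp
  rw [h8, v.map_mul (f / Ω * l), v.map_mul (n : ℂ), hvn, hvn2, mul_one, mul_one] at hSle
  exact hSle

end val

end Pool.Agent.N883.U
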